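import Pool.Agent.Lib.MP_2fd4e2_co.Side.Final
import Pool.Agent.Lib.MP_2fd4e2_co.Gen.Main

/-!
The area argument near a corner.
-/

set_option autoImplicit false

namespace Pool.Agent.UniTrap

open Complex Set Filter Topology MeasureTheory Pool.Agent.ArcTrap Pool.Agent.SideTrap

/-- a component of an open set is relatively closed -/
theorem comp_closed {O : Set ℂ} (hO : IsOpen O) {w1 w : ℂ}
    (hw : w ∈ closure (connectedComponentIn O w1)) (hwO : w ∈ O) :
    w ∈ connectedComponentIn O w1 := by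
  obtain ⟨δ, hδ, hb⟩ := Metric.isOpen_iff.mp hO w hwO
  obtain ⟨y, hy1, hy2⟩ := mem_closure_iff.mp hw (Metric.ball w δ) Metric.isOpen_ball
    (Metric.mem_ball_self hδ)
  have h1 : Metric.ball w δ ⊆ connectedComponentIn O y :=
    (convex_ball w δ).isPreconnected.subset_connectedComponentIn hy1 hb
  rw [connectedComponentIn_eq hy2]
  exact h1 (Metric.mem_ball_self hδ)

/-- **The area argument near a corner**: among the pairs of points whose third vertices lie in the
region next to the arc, there is one whose fourth vertex lies on the curve. -/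
theorem area_corner {V3 V4 : ℂ ≃ₜ ℂ} {h ℓ : ℂ → ℝ} (hh : Continuous h) (hℓc : Continuous ℓ)
    {η R : ℝ}
    (hreal : ∀ x : ℝ, V3 x = V4 x)
    (hvol : ∀ S : Set ℂ, IsOpen S → volume (V3 '' S) = volume (V4 '' S))
    (hre : ∀ w : ℂ, 0 < w.im → (V4 w).re < (V3 w).re)
    (hup : ∀ w : ℂ, 0 < (V3.symm w).im ↔ 0 < (V4.symm w).im)
    (hℓ : ∀ w : ℂ, 0 < w.im → ℓ (V4 w) < ℓ (V3 w))
    (hR : 0 < R)
    (hbd : ∀ w : ℂ, 0 < w.im → 0 < tt w → ℓ (V3 w) < η → |w.re| ≤ R ∧ |w.im| ≤ R)
    (hleg : ∀ w : ℂ, 0 < w.im → tt w = 0 → ℓ (V3 w) ≤ η → 0 < h (V4 w))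
    {x ρ : ℝ} (hρ : 0 < ρ)
    (hd : ∀ w : ℂ, ‖w - x‖ < ρ → 0 < w.im → 0 < tt w ∧ ℓ (V3 w) < η ∧ h (V3 w) < 0 ∧
      h (V4 w) < 0) :
    ∃ w0 : ℂ, h (V4 w0) = 0 ∧
      JoinedIn {w : ℂ | 0 < w.im ∧ 0 < tt w ∧ ℓ (V3 w) < η ∧ h (V3 w) < 0} ⟨x, ρ / 2⟩ w0 := by
  set O : Set ℂ := {w : ℂ | 0 < w.im ∧ 0 < tt w ∧ ℓ (V3 w) < η ∧ h (V3 w) < 0} with hO
  have oO : IsOpen O := by
    apply (isOpen_lt continuous_const Complex.continuous_im).inter
    apply (isOpen_lt continuous_const continuous_tt).inter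
    apply (isOpen_lt (hℓc.comp V3.continuous) continuous_const).inter
    exact isOpen_lt (hh.comp V3.continuous) continuous_const
  set w1 : ℂ := ⟨x, ρ / 2⟩ with hw1
  have hn : ∀ τ : ℝ, 0 < τ → ‖(⟨x, τ⟩ : ℂ) - (x : ℂ)‖ = τ := by
    intro τ hτ
    have e : (⟨x, τ⟩ : ℂ) - (x : ℂ) = (τ : ℂ) * I := by
      apply Complex.ext <;> simp
    rw [e, norm_mul, Complex.norm_real, Complex.norm_I, mul_one, Real.norm_eq_abs, abs_of_pos hτ]
  have hw1d : ‖w1 - (x : ℂ)‖ < ρ := by rw [hw1, hn _ (by linarith)]; linarith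
  have hw1i : 0 < w1.im := by show 0 < ρ / 2; linarith
  have hHO : {w : ℂ | ‖w - (x : ℂ)‖ < ρ ∧ 0 < w.im} ⊆ O := by
    rintro w ⟨k1, k2⟩
    obtain ⟨k3, k4, k5, _⟩ := hd w k1 k2
    exact ⟨k2, k3, k4, k5⟩
  set D : Set ℂ := connectedComponentIn O w1 with hD
  have oD : IsOpen D := oO.connectedComponentIn
  have hDO : D ⊆ O := connectedComponentIn_subset _ _
  have w1O : w1 ∈ O := hHO ⟨hw1d, hw1i⟩
  have w1D : w1 ∈ D := mem_connectedComponentIn w1O
  have hHD : {w : ℂ | ‖w - (x : ℂ)‖ < ρ ∧ 0 < w.im} ⊆ D :=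
    (half_disc_convex _ _).isPreconnected.subset_connectedComponentIn ⟨hw1d, hw1i⟩ hHO
  have preD : IsPreconnected D := isPreconnected_connectedComponentIn
  have key : ∃ w0 ∈ D, h (V4 w0) = 0 := by
    by_contra hcon
    push Not at hcon
    -- the fourth vertices are inside
    have hneg : ∀ w ∈ D, h (V4 w) < 0 := by
      intro w hw
      exact (Pool.Agent.GenTrap.sign_const (h := fun w => h (V4 w)) (hh.comp V4.continuous) preD
        (fun z hz => hcon z hz) w1D hw).1 (hd w1 hw1d hw1i).2.2.2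
    have hneg' : ∀ w ∈ closure D, h (V4 w) ≤ 0 := by
      intro w hw
      have : closure D ⊆ {w | h (V4 w) ≤ 0} := by
        apply closure_minimal _ (isClosed_le (hh.comp V4.continuous) continuous_const)
        intro z hz
        exact (hneg z hz).le
      exact this hw
    have hcl : closure D ⊆ {w | 0 ≤ w.im ∧ 0 ≤ tt w ∧ ℓ (V3 w) ≤ η} := by
      apply closure_minimal
      · intro z hz
        obtain ⟨k1, k2, k3, _⟩ := hDO hz
        exact ⟨k1.le, k2.le, k3.le⟩
      · apply (isClosed_le continuous_const Complex.continuous_im).inter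
        apply (isClosed_le continuous_const continuous_tt).inter
        exact isClosed_le (hℓc.comp V3.continuous) continuous_const
    have hsub : V4 '' D ⊆ V3 '' D := by
      apply pre_sub (preD.image _ V4.continuous.continuousOn) (V3.isOpenMap _ oD)
      · rintro _ ⟨w, hw, rfl⟩ hfr
        rw [← V3.image_frontier] at hfr
        obtain ⟨w', hw', heq⟩ := hfr
        have hcw : w' ∈ closure D := hw'.1
        have hnw : w' ∉ D := by
          have := hw'.2
          rwa [oD.interior_eq] at this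
        obtain ⟨k1, k2, k3⟩ := hcl hcw
        obtain ⟨l1, l2, l3, l4⟩ := hDO hw
        apply hnw
        apply comp_closed oO hcw
        have i1 : 0 < w'.im := by
          have := (hup (V4 w)).mpr (by rw [V4.symm_apply_apply]; exact l1)
          rwa [← heq, V3.symm_apply_apply] at this
        refine ⟨i1, ?_, ?_, ?_⟩
        · rcases k2.eq_or_lt with h0 | h0
          · exfalso
            have := hleg w' i1 h0.symm k3
            exact absurd (hneg' w' hcw) (not_le.mpr this)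
          · exact h0
        · rw [heq]
          exact (hℓ w l1).trans l3
        · rw [heq]
          exact hneg w hw
      · have h1 : Tendsto (fun τ : ℝ => V3.symm (V4 ⟨x, τ⟩)) (𝓝 0) (𝓝 (V3.symm (V4 ⟨x, 0⟩))) := by
          have : Continuous (fun τ : ℝ => V3.symm (V4 ⟨x, τ⟩)) := by
            apply V3.symm.continuous.comp
            apply V4.continuous.comp
            exact cmk' continuous_const continuous_id
          exact this.tendsto 0
        have e : V3.symm (V4 ⟨x, 0⟩) = (x : ℂ) := by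
          have : (⟨x, 0⟩ : ℂ) = (x : ℂ) := rfl
          rw [this, ← hreal, V3.symm_apply_apply]
        rw [e] at h1
        have h2 : ∀ᶠ τ in 𝓝[>] (0 : ℝ), V3.symm (V4 ⟨x, τ⟩) ∈ Metric.ball (x : ℂ) ρ :=
          nhdsWithin_le_nhds (h1.eventually (Metric.ball_mem_nhds (x : ℂ) hρ))
        obtain ⟨τ, h4, h5⟩ := (h2.and (Ioo_mem_nhdsGT hρ)).exists
        have hτD : (⟨x, τ⟩ : ℂ) ∈ D := hHD ⟨by rw [hn τ h5.1]; exact h5.2, h5.1⟩
        refine ⟨V4 ⟨x, τ⟩, ⟨_, hτD, rfl⟩, ⟨V3.symm (V4 ⟨x, τ⟩), hHD ⟨?_, ?_⟩,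
          V3.apply_symm_apply _⟩⟩
        · rw [Metric.mem_ball, dist_eq_norm] at h4
          exact h4
        · rw [hup, V4.symm_apply_apply]
          exact h5.1
    exact vol_contra V3 V4 oD ⟨w1, w1D⟩ ⟨R, hR, fun w hw => by
      obtain ⟨k1, k2, k3, _⟩ := hDO hw
      exact hbd w k1 k2 k3⟩ hsub hvol Complex.continuous_re
      (fun w hw => hre w (hDO hw).1)
  obtain ⟨w0, hw0, h0⟩ := key
  refine ⟨w0, h0, ?_⟩
  have hpc : IsPathConnected D := oD.isConnected_iff_isPathConnected.mp ⟨⟨w1, w1D⟩, preD⟩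
  exact (hpc.joinedIn w1 w1D w0 hw0).mono hDO

end Pool.Agent.UniTrap
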