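import Pool.Agent.Lib.MP_2fd4e2_co.Uni.Maps

/-!
The path in the triangle of pairs from the diagonal to the apex, near the end `P`.
-/

set_option autoImplicit false

namespace Pool.Agent.UniTrap

open Complex Set Filter Topology MeasureTheory Pool.Agent.ArcTrap Pool.Agent.SideTrap
open Pool.Agent.GenTrap (Fwd Lft Shp v3 v4 w3 w4 Jc Curve continuous_v3 continuous_v4)

/-- all data -/
structure UD (α γ : ℝ → ℂ) (A p q : ℝ) (h : ℂ → ℝ) : Prop where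
  S : Curve α A γ
  H : Shp A p q
  hh : Continuous h
  hz : ∀ z, h z = 0 ↔ z ∈ Jc α γ
  small : ∀ ε0 > 0, ∃ δ > 0, ∀ t u, ε0 ≤ t → t < u → u ≤ 1 - ε0 → u - t < δ →
      h (v3 α p q t u) < 0 ∧ h (v4 α p q t u) < 0 ∧ 0 < h (w3 α p q t u) ∧
      0 < h (w4 α p q t u)
  legP : ∀ u ∈ Ioc (0 : ℝ) 1, v4 α p q 0 u ∉ Jc α γ
  legQ : ∀ t ∈ Ico (0 : ℝ) 1, v3 α p q t 1 ∉ Jc α γ

/-- the condition at the end `P` -/
def EndP (α γ : ℝ → ℂ) (p q : ℝ) : Prop :=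
  ∃ e : ℂ, e ≠ 0 ∧ ∃ ε > 0, ∃ B : ℝ, Shp B p q ∧
    2 * B * |p + p ^ 2 + q ^ 2| < q * (1 - B ^ 2) ∧
    (∀ t u, 0 ≤ t → t < u → u ≤ ε → Fwd B ((α u - α t) / e)) ∧
    ∀ δ > 0, ∀ᶠ s in 𝓝[>] (0 : ℝ), ∃ t u : ℝ, 0 < t ∧ t < u ∧ u < δ ∧ γ s = v4 α p q t u

/-- the set of pairs in which the path runs -/
def FL (α : ℝ → ℂ) (p q : ℝ) (h : ℂ → ℝ) : Set ℂ :=
  {w | 0 ≤ tt w ∧ 0 < w.im ∧ uu w ≤ 1 ∧
    ¬ (0 ≤ h (v3 α p q (tt w) (uu w)) ∧ h (v4 α p q (tt w) (uu w)) ≤ 0)}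

theorem convex_tt_lt (c : ℝ) : Convex ℝ {w : ℂ | tt w < c} := by
  apply convex_halfSpace_lt
  exact (Complex.reLm - Complex.imLm).isLinear

theorem convex_tt_le (c : ℝ) : Convex ℝ {w : ℂ | tt w ≤ c} := by
  apply convex_halfSpace_le
  exact (Complex.reLm - Complex.imLm).isLinear

theorem norm_le_of_tu {w : ℂ} (h1 : 0 ≤ tt w) (h2 : 0 < w.im) : ‖w‖ ≤ 2 * uu w := by
  refine (Complex.norm_le_abs_re_add_abs_im w).trans ?_
  unfold tt at h1
  unfold uu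
  rw [abs_of_nonneg (by linarith), abs_of_pos h2]
  linarith

/-- the part of a disc outside the sector -/
theorem pre_Y {r : ℝ} (hr : 0 < r) :
    IsPreconnected ({w : ℂ | ‖w‖ < r ∧ w.im < 0} ∪ {w : ℂ | ‖w‖ < r ∧ tt w < 0} ∪
      {w : ℂ | ‖w‖ < r ∧ (0 < w.im ∧ tt w ≤ 0)}) := by
  have hb : Convex ℝ {w : ℂ | ‖w‖ < r} := by
    have := convex_ball (0 : ℂ) r
    have e : Metric.ball (0 : ℂ) r = {w : ℂ | ‖w‖ < r} := by
      ext w; rw [mem_ball_zero_iff]; rfl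
    rwa [e] at this
  have c1 : Convex ℝ {w : ℂ | ‖w‖ < r ∧ w.im < 0} := hb.inter (convex_halfSpace_im_lt 0)
  have c2 : Convex ℝ {w : ℂ | ‖w‖ < r ∧ tt w < 0} := hb.inter (convex_tt_lt 0)
  have c3 : Convex ℝ {w : ℂ | ‖w‖ < r ∧ (0 < w.im ∧ tt w ≤ 0)} :=
    hb.inter ((convex_halfSpace_im_gt 0).inter (convex_tt_le 0))
  have n : ∀ a b : ℝ, |a| + |b| < r → ‖(⟨a, b⟩ : ℂ)‖ < r := fun a b h =>
    (Complex.norm_le_abs_re_add_abs_im _).trans_lt h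
  have m1 : ‖(⟨-(r / 4), -(r / 8)⟩ : ℂ)‖ < r := by
    apply n
    rw [abs_neg, abs_neg, abs_of_pos (by positivity), abs_of_pos (by positivity)]
    linarith
  have m2 : ‖(⟨-(r / 4), r / 8⟩ : ℂ)‖ < r := by
    apply n
    rw [abs_neg, abs_of_pos (by positivity), abs_of_pos (by positivity)]
    linarith
  refine IsPreconnected.union (⟨-(r / 4), r / 8⟩ : ℂ) (Or.inr ⟨m2, ?_⟩) ⟨m2, ?_, ?_⟩
    (IsPreconnected.union (⟨-(r / 4), -(r / 8)⟩ : ℂ) ⟨m1, ?_⟩ ⟨m1, ?_⟩ c1.isPreconnected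
      c2.isPreconnected) c3.isPreconnected
  · show tt ⟨-(r / 4), r / 8⟩ < 0
    simp only [tt]; linarith
  · show 0 < r / 8
    positivity
  · show tt ⟨-(r / 4), r / 8⟩ ≤ 0
    simp only [tt]; linarith
  · show -(r / 8) < 0
    linarith
  · show tt ⟨-(r / 4), -(r / 8)⟩ < 0
    simp only [tt]; linarith

/-- the pair with the given coordinates -/
noncomputable def pt (t u : ℝ) : ℂ := ⟨(t + u) / 2, (u - t) / 2⟩

theorem tt_pt (t u : ℝ) : tt (pt t u) = t := by simp only [tt, pt]; ring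
theorem uu_pt (t u : ℝ) : uu (pt t u) = u := by simp only [uu, pt]; ring
theorem pt_tu (w : ℂ) : pt (tt w) (uu w) = w := tu_ext (tt_pt _ _) (uu_pt _ _)
theorem im_pt (t u : ℝ) : (pt t u).im = (u - t) / 2 := rfl

theorem continuous_pt {f g : ℝ → ℝ} (hf : Continuous f) (hg : Continuous g) :
    Continuous (fun s => pt (f s) (g s)) := by
  unfold pt
  apply cmk'
  · exact (hf.add hg).div_const _
  · exact (hg.sub hf).div_const _

/-- a path with given first and second coordinates -/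
theorem joined_pt {F : Set ℂ} {f g : ℝ → ℝ} (hf : Continuous f) (hg : Continuous g)
    (hF : ∀ s ∈ Icc (0 : ℝ) 1, pt (f s) (g s) ∈ F) : JoinedIn F (pt (f 0) (g 0)) (pt (f 1) (g 1)) := by
  refine JoinedIn.ofLine (f := fun s => pt (f s) (g s)) (continuous_pt hf hg).continuousOn rfl rfl ?_
  rintro _ ⟨s, hs, rfl⟩
  exact hF s hs

variable {α γ : ℝ → ℂ} {A p q : ℝ} {h : ℂ → ℝ}

/-- the local analysis near the end `P` -/
structure Nr (α γ : ℝ → ℂ) (p q : ℝ) (e : ℂ) (ε : ℝ) (V3 V4 : ℂ ≃ₜ ℂ) (ℓ : ℂ → ℝ) (s1 r : ℝ) :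
    Prop where
  L : LM α e ε p q V3 V4 ℓ
  he : e ≠ 0
  hε : 0 < ε
  hε1 : ε ≤ 1 / 2
  hs : 0 < s1
  hs1 : s1 ≤ 1
  hr : 0 < r
  hrε : r ≤ ε
  path : ∀ s ∈ Ioo 0 s1, ∃ t u : ℝ, 0 < t ∧ t < u ∧ u < ε ∧ γ s = v4 α p q t u
  near : ∀ w : ℂ, ‖w‖ < r → α 0 + e * V4 w ∈ Jc α γ → (w.im = 0 ∧ 0 ≤ w.re) ∨
    (0 < tt w ∧ 0 < w.im ∧ ∃ s ∈ Ioo 0 s1, γ s = α 0 + e * V4 w)

theorem v4_self (t : ℝ) : v4 α p q t t = α t := by
  unfold v4; rw [sub_self, mul_zero, add_zero]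

theorem LM.at_real {e : ℂ} {ε : ℝ} {V3 V4 : ℂ ≃ₜ ℂ} {ℓ : ℂ → ℝ}
    (L : LM α e ε p q V3 V4 ℓ) {t : ℝ} (ht : t ∈ Icc 0 ε) : α 0 + e * V4 (t : ℂ) = α t := by
  have h1 : tt (t : ℂ) = t := by simp [tt]
  have h2 : uu (t : ℂ) = t := by simp [uu]
  have := L.e4 (t : ℂ) (by rw [h1]; exact ht.1) (by rw [h1]; exact ht.2)
    (by rw [h2]; exact ht.1) (by rw [h2]; exact ht.2)
  rw [this, h1, h2, v4_self]

theorem LM.at_pt4 {e : ℂ} {ε : ℝ} {V3 V4 : ℂ ≃ₜ ℂ} {ℓ : ℂ → ℝ}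
    (L : LM α e ε p q V3 V4 ℓ) {t u : ℝ} (ht : 0 ≤ t) (htu : t ≤ u) (hu : u ≤ ε) :
    α 0 + e * V4 (pt t u) = v4 α p q t u := by
  have := L.e4 (pt t u) (by rw [tt_pt]; exact ht) (by rw [tt_pt]; linarith)
    (by rw [uu_pt]; linarith) (by rw [uu_pt]; exact hu)
  rw [this, tt_pt, uu_pt]

theorem UD.exists_Nr (D : UD α γ A p q h) (E : EndP α γ p q) :
    ∃ e ε V3 V4 ℓ s1 r, Nr α γ p q e ε V3 V4 ℓ s1 r := by
  obtain ⟨e, he, ε', hε', B, SB, hψ, hcone, hP⟩ := E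
  set ε := min ε' (1 / 2) with hε
  have hεpos : 0 < ε := by positivity
  have hε1 : ε ≤ 1 / 2 := min_le_right _ _
  have H : End α e ε B :=
    { hα := D.S.hα
      he := he
      hε := hεpos
      hB := SB.hA
      cone := fun t u h1 h2 h3 => hcone t u h1 h2 (h3.trans (min_le_left _ _)) }
  obtain ⟨V3, V4, ℓ, L⟩ := H.exists_LM SB hψ
  obtain ⟨s1', hs1', hpath⟩ : ∃ s1' > 0, ∀ s ∈ Ioo 0 s1', ∃ t u : ℝ, 0 < t ∧ t < u ∧ u < ε ∧
      γ s = v4 α p q t u := by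
    have := hP ε hεpos
    rw [Filter.Eventually, mem_nhdsGT_iff_exists_Ioo_subset] at this
    obtain ⟨s', hs', hsub⟩ := this
    exact ⟨s', hs', fun s hs => hsub hs⟩
  set s1 := min s1' 1 with hs1
  have hs1pos : 0 < s1 := lt_min hs1' one_pos
  have hα := D.S.hα
  have hγ := D.S.hγ
  -- distances
  have i0 : (0 : ℝ) ∈ Icc (0 : ℝ) 1 := ⟨le_rfl, zero_le_one⟩
  have i1 : (1 : ℝ) ∈ Icc (0 : ℝ) 1 := ⟨zero_le_one, le_rfl⟩
  obtain ⟨ρ1, hρ1, hd1⟩ : ∃ ρ1 > 0, ∀ t ∈ Icc ε 1, ρ1 ≤ ‖α t - α 0‖ := by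
    have hc : ContinuousOn (fun t => ‖α t - α 0‖) (Icc ε 1) := by fun_prop
    obtain ⟨t0, ht0, hmin⟩ := isCompact_Icc.exists_isMinOn (nonempty_Icc.mpr (by linarith)) hc
    refine ⟨‖α t0 - α 0‖, ?_, fun t ht => hmin ht⟩
    rw [gt_iff_lt, norm_pos_iff, sub_ne_zero]
    intro heq
    have := D.S.inj ⟨by linarith [ht0.1], ht0.2⟩ i0 heq
    linarith [ht0.1]
  obtain ⟨ρ2, hρ2, hd2⟩ : ∃ ρ2 > 0, ∀ s ∈ Icc s1 1, ρ2 ≤ ‖γ s - α 0‖ := by
    have hc : ContinuousOn (fun t => ‖γ t - α 0‖) (Icc s1 1) := by fun_prop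
    obtain ⟨t0, ht0, hmin⟩ := isCompact_Icc.exists_isMinOn
      (nonempty_Icc.mpr (min_le_right _ _)) hc
    refine ⟨‖γ t0 - α 0‖, ?_, fun t ht => hmin ht⟩
    rw [gt_iff_lt, norm_pos_iff, sub_ne_zero]
    intro heq
    have h0 : 0 < t0 := by linarith [ht0.1]
    rcases ht0.2.eq_or_lt with h1 | h1
    · rw [h1, D.S.g1] at heq
      have := D.S.inj i1 i0 heq
      linarith
    · exact D.S.av t0 ⟨h0, h1⟩ 0 i0 heq
  have hV0 : V4 0 = 0 := by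
    have h1 := L.at_real (t := 0) ⟨le_rfl, hεpos.le⟩
    have h2 : e * V4 ((0 : ℝ) : ℂ) = 0 := by linear_combination h1
    rw [Complex.ofReal_zero] at h2
    exact (mul_eq_zero.mp h2).resolve_left he
  obtain ⟨r', hr', hsm⟩ : ∃ r' > 0, ∀ w : ℂ, ‖w‖ < r' → ‖e * V4 w‖ < min ρ1 ρ2 := by
    have hc : Continuous (fun w => ‖e * V4 w‖) := (continuous_const.mul V4.continuous).norm
    have h1 : ∀ᶠ w in 𝓝 (0 : ℂ), ‖e * V4 w‖ < min ρ1 ρ2 :=
      (hc.tendsto 0).eventually (gt_mem_nhds (by rw [hV0, mul_zero, norm_zero]; positivity))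
    obtain ⟨r', hr', hh⟩ := Metric.eventually_nhds_iff.mp h1
    exact ⟨r', hr', fun w hw => hh (by rw [dist_zero_right]; exact hw)⟩
  refine ⟨e, ε, V3, V4, ℓ, s1, min r' ε, L, he, hεpos, hε1, hs1pos, min_le_right _ _,
    lt_min hr' hεpos, min_le_right _ _, ?_, ?_⟩
  · intro s hs
    exact hpath s ⟨hs.1, hs.2.trans_le (min_le_left _ _)⟩
  · intro w hw hJ
    have hn := hsm w (hw.trans_le (min_le_left _ _))
    rcases hJ with ⟨t, ht, hte⟩ | ⟨s, hs, hse⟩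
    · left
      have hte' : α t - α 0 = e * V4 w := by rw [hte]; ring
      have htε : t < ε := by
        by_contra hcon
        push Not at hcon
        have := hd1 t ⟨hcon, ht.2⟩
        rw [hte'] at this
        have := min_le_left ρ1 ρ2
        linarith
      have h1 := L.at_real (t := t) ⟨ht.1, htε.le⟩
      have h2 : V4 (t : ℂ) = V4 w := by
        have : e * V4 (t : ℂ) = e * V4 w := by linear_combination h1 + hte
        exact mul_left_cancel₀ he this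
      have h3 := V4.injective h2
      rw [← h3]
      exact ⟨Complex.ofReal_im t, by rw [Complex.ofReal_re]; exact ht.1⟩
    · have hse' : γ s - α 0 = e * V4 w := by rw [hse]; ring
      have hs1' : s < s1 := by
        by_contra hcon
        push Not at hcon
        have := hd2 s ⟨hcon, hs.2⟩
        rw [hse'] at this
        have := min_le_right ρ1 ρ2
        linarith
      rcases hs.1.eq_or_lt with h0 | h0
      · left
        have : e * V4 w = 0 := by rw [← hse', ← h0, D.S.g0, sub_self]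
        have h1 : V4 w = V4 0 := by rw [hV0]; exact (mul_eq_zero.mp this).resolve_left he
        rw [V4.injective h1]
        simp
      · right
        obtain ⟨t, u, k1, k2, k3, k4⟩ := hpath s ⟨h0, hs1'.trans_le (min_le_left _ _)⟩
        have h1 := L.at_pt4 k1.le k2.le k3.le
        have h2 : V4 (pt t u) = V4 w := by
          have : e * V4 (pt t u) = e * V4 w := by linear_combination h1 - k4 + hse
          exact mul_left_cancel₀ he this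
        have h3 := V4.injective h2
        rw [← h3]
        refine ⟨by rw [tt_pt]; exact k1, by rw [im_pt]; linarith, s, ⟨h0, hs1'⟩, ?_⟩
        rw [h3]; exact hse

end Pool.Agent.UniTrap
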