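import Pool.Agent.Lib.MP_2fd4e2_co.Uni.Corner

/-!
The path in the triangle of pairs from the diagonal to the apex: construction.
-/

set_option autoImplicit false

namespace Pool.Agent.UniTrap

open Complex Set Filter Topology MeasureTheory Pool.Agent.ArcTrap Pool.Agent.SideTrap
open Pool.Agent.GenTrap (Fwd Lft Shp v3 v4 w3 w4 Jc Curve continuous_v3 continuous_v4
  continuous_w3)

variable {α γ : ℝ → ℂ} {A p q : ℝ} {h : ℂ → ℝ}
variable {e : ℂ} {ε : ℝ} {V3 V4 : ℂ ≃ₜ ℂ} {ℓ : ℂ → ℝ} {s1 r : ℝ}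

theorem LM.at_pt3 (L : LM α e ε p q V3 V4 ℓ) {t u : ℝ} (ht : 0 ≤ t) (htu : t ≤ u) (hu : u ≤ ε) :
    α 0 + e * V3 (pt t u) = v3 α p q t u := by
  have := L.e3 (pt t u) (by rw [tt_pt]; exact ht) (by rw [tt_pt]; linarith)
    (by rw [uu_pt]; linarith) (by rw [uu_pt]; exact hu)
  rw [this, tt_pt, uu_pt]

/-- the leg at `P` close to `P` is outside -/
theorem Nr.legNear (N : Nr α γ p q e ε V3 V4 ℓ s1 r) (D : UD α γ A p q h) (w : ℂ) (hw : ‖w‖ < r)
    (htw : tt w = 0) (hiw : 0 < w.im) : 0 < h (α 0 + e * V4 w) := by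
  have hr := N.hr
  have he := N.he
  set x := r / 2 with hx
  have hx0 : 0 < x := by positivity
  have hxε : x ≤ ε / 2 := by rw [hx]; linarith [N.hrε]
  obtain ⟨δ, hδ, hsm⟩ := D.small (x / 2) (by positivity)
  have hα := D.S.hα
  have hlim : Tendsto (fun η : ℝ => V4.symm ((w3 α p q x (x + η) - α 0) / e)) (𝓝 0)
      (𝓝 (x : ℂ)) := by
    have hc : Continuous (fun η : ℝ => V4.symm ((w3 α p q x (x + η) - α 0) / e)) := by
      apply V4.symm.continuous.comp
      unfold w3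
      fun_prop
    have h1 := hc.tendsto 0
    have h2 : V4.symm ((w3 α p q x (x + 0) - α 0) / e) = (x : ℂ) := by
      have h3 : w3 α p q x (x + 0) = α x := by
        unfold w3; rw [add_zero, sub_self, mul_zero, sub_zero]
      have h4 := N.L.at_real (t := x) ⟨hx0.le, by linarith [N.hε]⟩
      rw [h3, ← h4, add_sub_cancel_left, mul_div_cancel_left₀ _ he, V4.symm_apply_apply]
    rwa [h2] at h1
  have hxn : ‖(x : ℂ)‖ < r := by
    rw [Complex.norm_real, Real.norm_eq_abs, abs_of_pos hx0, hx]; linarith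
  have ev1 : ∀ᶠ η in 𝓝[>] (0 : ℝ), ‖V4.symm ((w3 α p q x (x + η) - α 0) / e)‖ < r := by
    have : ∀ᶠ z in 𝓝 (x : ℂ), ‖z‖ < r := (continuous_norm.tendsto _).eventually (gt_mem_nhds hxn)
    exact nhdsWithin_le_nhds (hlim.eventually this)
  obtain ⟨η, hη1, hη2⟩ := (ev1.and (Ioo_mem_nhdsGT (show 0 < min δ (ε / 2) from
    lt_min hδ (by linarith [N.hε])))).exists
  have hη3 := hη2.2.trans_le (min_le_left _ _)
  have hη4 := hη2.2.trans_le (min_le_right _ _)
  have hη0 := hη2.1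
  have hε1 := N.hε1
  have hpos := (hsm x (x + η) (by linarith) (by linarith) (by linarith) (by linarith)).2.2.1
  have hlow := N.L.hlow x (x + η) hx0.le (by linarith) (by linarith)
  set w' := V4.symm ((w3 α p q x (x + η) - α 0) / e) with hw'
  have hval : α 0 + e * V4 w' = w3 α p q x (x + η) := by
    rw [hw', V4.apply_symm_apply, mul_div_cancel₀ _ he]; ring
  have hc : Continuous (fun w : ℂ => h (α 0 + e * V4 w)) :=
    D.hh.comp (continuous_const.add (continuous_const.mul V4.continuous))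
  refine (GenTrap.sign_const hc (pre_Y hr) ?_ (z := w') (w := w) (Or.inl (Or.inl ⟨hη1, hlow⟩))
    (Or.inr ⟨hw, hiw, htw.le⟩)).2 (by show 0 < h (α 0 + e * V4 w'); rw [hval]; exact hpos)
  intro z hz h0
  have hJ := (D.hz _).mp h0
  have hzr : ‖z‖ < r := by
    rcases hz with (hz | hz) | hz
    · exact hz.1
    · exact hz.1
    · exact hz.1
  rcases N.near z hzr hJ with ⟨k1, k2⟩ | ⟨k1, k2, _⟩
  · rcases hz with (hz | hz) | hz
    · have := hz.2; linarith
    · have : tt z < 0 := hz.2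
      unfold tt at this
      linarith
    · have := hz.2.1; linarith
  · rcases hz with (hz | hz) | hz
    · have := hz.2; linarith
    · have : tt z < 0 := hz.2
      linarith
    · have := hz.2.2; linarith

/-- the leg at `P` is outside -/
theorem Nr.leg (N : Nr α γ p q e ε V3 V4 ℓ s1 r) (D : UD α γ A p q h) {u : ℝ} (hu0 : 0 < u)
    (hu1 : u ≤ 1) : 0 < h (v4 α p q 0 u) := by
  have hr := N.hr
  set u' := min u (r / 4) with hu'
  have h1 : 0 < u' := by positivity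
  have h2 : u' ≤ u := min_le_left _ _
  have h3 : u' ≤ r / 4 := min_le_right _ _
  have hε := N.hrε
  have hα := D.S.hα
  have hS : IsPreconnected ((fun v : ℝ => v4 α p q 0 v) '' Icc u' u) := by
    apply isPreconnected_Icc.image
    apply Continuous.continuousOn
    unfold v4; fun_prop
  have hbase : 0 < h (v4 α p q 0 u') := by
    rw [← N.L.at_pt4 le_rfl h1.le (by linarith)]
    apply N.legNear D
    · have := norm_le_of_tu (w := pt 0 u') (by rw [tt_pt]) (by rw [im_pt]; linarith)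
      rw [uu_pt] at this
      linarith
    · exact tt_pt _ _
    · rw [im_pt]; linarith
  refine (GenTrap.sign_const D.hh hS ?_ ⟨u', ⟨le_rfl, h2⟩, rfl⟩ ⟨u, ⟨h2, le_rfl⟩, rfl⟩).2 hbase
  rintro _ ⟨v, hv, rfl⟩ h0
  exact D.legP v ⟨by linarith [hv.1], by linarith [hv.2]⟩ ((D.hz _).mp h0)

/-- the pairs whose third and fourth vertices are inside -/
theorem mem_FL_of_neg {w : ℂ} (h1 : 0 ≤ tt w) (h2 : 0 < w.im) (h3 : uu w ≤ 1)
    (h4 : h (v3 α p q (tt w) (uu w)) < 0) : w ∈ FL α p q h :=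
  ⟨h1, h2, h3, fun hh => absurd hh.1 (not_le.mpr h4)⟩

theorem mem_FL_of_pos {w : ℂ} (h1 : 0 ≤ tt w) (h2 : 0 < w.im) (h3 : uu w ≤ 1)
    (h4 : 0 < h (v4 α p q (tt w) (uu w))) : w ∈ FL α p q h :=
  ⟨h1, h2, h3, fun hh => absurd hh.2 (not_le.mpr h4)⟩

/-- the leg side of the triangle -/
theorem Nr.joined_leg (N : Nr α γ p q e ε V3 V4 ℓ s1 r) (D : UD α γ A p q h) {u : ℝ}
    (hu0 : 0 < u) (hu1 : u ≤ 1) : JoinedIn (FL α p q h) (pt 0 u) (pt 0 1) := by
  have key := joined_pt (F := FL α p q h) (f := fun _ => (0 : ℝ))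
    (g := fun s => u + (1 - u) * s) continuous_const (by fun_prop) (by
      intro s hs
      have k1 : 0 ≤ (1 - u) * s := mul_nonneg (by linarith) hs.1
      have k2 : (1 - u) * s ≤ (1 - u) * 1 := mul_le_mul_of_nonneg_left hs.2 (by linarith)
      apply mem_FL_of_pos
      · rw [tt_pt]
      · rw [im_pt]; linarith
      · rw [uu_pt]; linarith
      · rw [tt_pt, uu_pt]
        exact N.leg D (by linarith) (by linarith))
  have e1 : u + (1 - u) * 0 = u := by ring
  have e2 : u + (1 - u) * 1 = 1 := by ring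
  simp only [e1, e2] at key
  exact key

/-- the lift of the closing path -/
noncomputable def g4 (α γ : ℝ → ℂ) (e : ℂ) (V4 : ℂ ≃ₜ ℂ) (s : ℝ) : ℂ := V4.symm ((γ s - α 0) / e)

theorem Nr.g4_eq (N : Nr α γ p q e ε V3 V4 ℓ s1 r) {w : ℂ} {s : ℝ} (hs : γ s = α 0 + e * V4 w) :
    g4 α γ e V4 s = w := by
  unfold g4
  rw [hs, add_sub_cancel_left, mul_div_cancel_left₀ _ N.he, V4.symm_apply_apply]

theorem Nr.g4_mem (N : Nr α γ p q e ε V3 V4 ℓ s1 r) {s : ℝ} (hs : s ∈ Ioo 0 s1) :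
    ∃ t u : ℝ, 0 < t ∧ t < u ∧ u < ε ∧ γ s = v4 α p q t u ∧ g4 α γ e V4 s = pt t u := by
  obtain ⟨t, u, h1, h2, h3, h4⟩ := N.path s hs
  refine ⟨t, u, h1, h2, h3, h4, N.g4_eq ?_⟩
  rw [h4, N.L.at_pt4 h1.le h2.le h3.le]

/-- the path `γ` near `P` stays in the set, once one of its pairs has its third vertex inside -/
theorem Nr.joined_g4 (N : Nr α γ p q e ε V3 V4 ℓ s1 r) (D : UD α γ A p q h)
    (hno : ∀ t u : ℝ, 0 ≤ t → t < u → u ≤ 1 → ¬ (h (v3 α p q t u) = 0 ∧ h (v4 α p q t u) = 0))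
    {s0 : ℝ} (hs0 : s0 ∈ Ioo 0 s1)
    (hneg : h (v3 α p q (tt (g4 α γ e V4 s0)) (uu (g4 α γ e V4 s0))) < 0) {s : ℝ}
    (hs : s ∈ Ioo 0 s1) :
    h (v3 α p q (tt (g4 α γ e V4 s)) (uu (g4 α γ e V4 s))) < 0 ∧
    JoinedIn (FL α p q h) (g4 α γ e V4 s0) (g4 α γ e V4 s) := by
  have hα := D.S.hα
  have hγ := D.S.hγ
  have hε1 := N.hε1
  have hgc : Continuous (g4 α γ e V4) := by
    unfold g4
    exact V4.symm.continuous.comp ((hγ.sub continuous_const).div_const _)
  have hc : Continuous (fun s => h (v3 α p q (tt (g4 α γ e V4 s)) (uu (g4 α γ e V4 s)))) := by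
    apply D.hh.comp
    have h1 : Continuous (fun s => (tt (g4 α γ e V4 s), uu (g4 α γ e V4 s))) :=
      (continuous_tt.comp hgc).prodMk (continuous_uu.comp hgc)
    exact (continuous_v3 hα).comp h1
  have hJ : ∀ s ∈ Ioo 0 s1, h (γ s) = 0 := by
    intro s hs
    rw [D.hz]
    exact Or.inr ⟨s, ⟨hs.1.le, by linarith [hs.2, N.hs1]⟩, rfl⟩
  have hne : ∀ s ∈ Ioo 0 s1, h (v3 α p q (tt (g4 α γ e V4 s)) (uu (g4 α γ e V4 s))) ≠ 0 := by
    intro s hs h0
    obtain ⟨t, u, h1, h2, h3, h4, h5⟩ := N.g4_mem hs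
    rw [h5, tt_pt, uu_pt] at h0
    refine hno t u h1.le h2 (by linarith) ⟨h0, ?_⟩
    rw [← h4]
    exact hJ s hs
  have hall : ∀ s ∈ Ioo 0 s1, h (v3 α p q (tt (g4 α γ e V4 s)) (uu (g4 α γ e V4 s))) < 0 := by
    intro s hs
    by_contra hcon
    push Not at hcon
    obtain ⟨x, hx, hx'⟩ := isPreconnected_Ioo.intermediate_value hs0 hs hc.continuousOn
      ⟨hneg.le, hcon⟩
    exact hne x hx hx'
  have hF : ∀ s ∈ Ioo 0 s1, g4 α γ e V4 s ∈ FL α p q h := by
    intro s hs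
    have h6 := hall s hs
    obtain ⟨t, u, h1, h2, h3, h4, h5⟩ := N.g4_mem hs
    rw [h5] at h6 ⊢
    apply mem_FL_of_neg
    · rw [tt_pt]; exact h1.le
    · rw [im_pt]; linarith
    · rw [uu_pt]; linarith
    · exact h6
  refine ⟨hall s hs, ?_⟩
  have hpc : IsPathConnected (g4 α γ e V4 '' Ioo 0 s1) :=
    ((convex_Ioo (0 : ℝ) s1).isPathConnected ⟨s0, hs0⟩).image hgc
  refine (hpc.joinedIn _ ⟨s0, hs0, rfl⟩ _ ⟨s, hs, rfl⟩).mono ?_
  rintro _ ⟨s, hs, rfl⟩
  exact hF s hs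

/-- a pair on the horizontal segment, at which the fourth vertex meets the closing path -/
theorem Nr.first (N : Nr α γ p q e ε V3 V4 ℓ s1 r) (D : UD α γ A p q h) :
    ∃ t u : ℝ, 0 < t ∧ t < u ∧ u ≤ ε ∧ 2 * u < r ∧ h (v4 α p q t u) = 0 ∧
      ∀ t' ∈ Ico 0 t, 0 < h (v4 α p q t' u) := by
  have hr := N.hr
  have hε := N.hrε
  have hε1 := N.hε1
  set u := r / 4 with hu
  have hu0 : 0 < u := by positivity
  obtain ⟨δ, hδ, hsm⟩ := D.small (u / 2) (by positivity)
  set t2 := max (u / 2) (u - δ / 2) with ht2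
  have k1 : u / 2 ≤ t2 := le_max_left _ _
  have k2 : u - δ / 2 ≤ t2 := le_max_right _ _
  have k3 : t2 < u := max_lt (by linarith) (by linarith)
  have hneg := (hsm t2 u k1 k3 (by linarith) (by linarith)).2.1
  have hpos := N.leg D hu0 (by linarith)
  have hα := D.S.hα
  have hc : Continuous (fun t => h (v4 α p q t u)) := by
    apply D.hh.comp
    have h1 : Continuous (fun t : ℝ => (t, u)) := by fun_prop
    exact (continuous_v4 hα).comp h1
  set Z : Set ℝ := Icc 0 t2 ∩ {t | h (v4 α p q t u) ≤ 0} with hZ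
  have hZc : IsCompact Z := isCompact_Icc.inter_right (isClosed_le hc continuous_const)
  have hZn : Z.Nonempty := ⟨t2, ⟨by linarith, le_rfl⟩, hneg.le⟩
  obtain ⟨t1, ht1, hleast⟩ := hZc.exists_isLeast hZn
  have hlt : ∀ t' ∈ Ico 0 t1, 0 < h (v4 α p q t' u) := by
    intro t' ht'
    by_contra hcon
    push Not at hcon
    have := hleast ⟨⟨ht'.1, ht'.2.le.trans ht1.1.2⟩, hcon⟩
    linarith [ht'.2]
  have ht10 : 0 < t1 := by
    rcases ht1.1.1.eq_or_lt with h0 | h0
    · exfalso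
      have : h (v4 α p q t1 u) ≤ 0 := ht1.2
      rw [← h0] at this
      linarith
    · exact h0
  refine ⟨t1, u, ht10, ht1.1.2.trans_lt k3, by linarith, by linarith, ?_, hlt⟩
  apply le_antisymm ht1.2
  have h1 : Tendsto (fun t => h (v4 α p q t u)) (𝓝[<] t1) (𝓝 (h (v4 α p q t1 u))) :=
    (hc.tendsto t1).mono_left nhdsWithin_le_nhds
  apply ge_of_tendsto h1
  filter_upwards [Ioo_mem_nhdsLT ht10] with t ht
  exact (hlt t ⟨ht.1.le, ht.2⟩).le

theorem UD.corner (D : UD α γ A p q h) (E : EndP α γ p q)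
    (hno : ∀ t u : ℝ, 0 ≤ t → t < u → u ≤ 1 → ¬ (h (v3 α p q t u) = 0 ∧ h (v4 α p q t u) = 0)) :
    ∃ x ∈ Ioo (0 : ℝ) (1 / 2), ∃ ρ > 0, ∀ τ ∈ Ioo 0 ρ, JoinedIn (FL α p q h) ⟨x, τ⟩ (pt 0 1) := by
  obtain ⟨e, ε, V3, V4, ℓ, s1, r, N⟩ := D.exists_Nr E
  have hr := N.hr
  have hε := N.hrε
  have hε1 := N.hε1
  have hα := D.S.hα
  have L := N.L
  set δ1 := r / 2 with hδ1
  obtain ⟨η, hη, hsmall⟩ := L.hsm δ1 (by positivity)
  -- the base point on the diagonal
  have hℓV : Continuous (fun w => ℓ (V3 w)) := L.hℓc.comp V3.continuous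
  obtain ⟨x, hx0, hx1, hxη⟩ : ∃ x : ℝ, 0 < x ∧ x < r / 4 ∧ ℓ (V3 (x : ℂ)) < η := by
    have h1 : Tendsto (fun x : ℝ => ℓ (V3 (x : ℂ))) (𝓝[>] 0) (𝓝 0) := by
      have h2 : Continuous (fun x : ℝ => ℓ (V3 (x : ℂ))) := hℓV.comp Complex.continuous_ofReal
      have h3 := (h2.tendsto 0).mono_left (nhdsWithin_le_nhds (s := Ioi (0 : ℝ)))
      rwa [Complex.ofReal_zero, L.hℓ0] at h3
    obtain ⟨x, k1, k2⟩ := ((h1.eventually (gt_mem_nhds hη)).and
      (Ioo_mem_nhdsGT (show 0 < r / 4 by positivity))).exists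
    exact ⟨x, k2.1, k2.2, k1⟩
  obtain ⟨δ, hδ, hsm⟩ := D.small (x / 2) (by positivity)
  obtain ⟨ρ', hρ', hball⟩ : ∃ ρ' > 0, ∀ w : ℂ, ‖w - x‖ < ρ' → ℓ (V3 w) < η := by
    obtain ⟨ρ', hρ', hh⟩ := Metric.eventually_nhds_iff.mp
      ((hℓV.tendsto (x : ℂ)).eventually (gt_mem_nhds hxη))
    exact ⟨ρ', hρ', fun w hw => hh (by rw [dist_eq_norm]; exact hw)⟩
  set ρ := min ρ' (min (δ / 2) (x / 4)) with hρ
  have hρ0 : 0 < ρ := by positivity
  have hρ1 : ρ ≤ ρ' := min_le_left _ _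
  have hρ2 : ρ ≤ δ / 2 := (min_le_right _ _).trans (min_le_left _ _)
  have hρ3 : ρ ≤ x / 4 := (min_le_right _ _).trans (min_le_right _ _)
  set h' : ℂ → ℝ := fun z => h (α 0 + e * z) with hh'
  have hh'c : Continuous h' := D.hh.comp (continuous_const.add (continuous_const_mul e))
  have hdisc : ∀ w : ℂ, ‖w - x‖ < ρ → 0 < w.im → 0 < tt w ∧ ℓ (V3 w) < η ∧ h' (V3 w) < 0 ∧
      h' (V4 w) < 0 := by
    intro w hw him
    have k1 := Complex.abs_re_le_norm (w - x)
    have k2 := Complex.abs_im_le_norm (w - x)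
    have e1 : (w - (x : ℂ)).re = w.re - x := by simp
    have e2 : (w - (x : ℂ)).im = w.im := by simp
    rw [e1] at k1
    rw [e2] at k2
    have k3 := abs_le.mp k1
    have k4 := abs_le.mp k2
    have k5 : x / 2 ≤ tt w := by unfold tt; linarith [k3.1, k4.2]
    have k6 : uu w ≤ 3 / 2 * x := by unfold uu; linarith [k3.2, k4.2]
    have k7 : tt w < uu w := (im_pos_iff w).mp him
    have k8 : uu w - tt w < δ := by unfold uu tt; linarith [k4.2]
    have := hsm (tt w) (uu w) k5 k7 (by linarith) k8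
    refine ⟨by linarith, hball w (hw.trans_le hρ1), ?_, ?_⟩
    · simp only [hh']
      rw [L.e3 w (by linarith) (by linarith) (by linarith) (by linarith)]
      exact this.1
    · simp only [hh']
      rw [L.e4 w (by linarith) (by linarith) (by linarith) (by linarith)]
      exact this.2.1
  obtain ⟨w0, hw0, hjoin⟩ := area_corner (V3 := V3) (V4 := V4) (h := h') (ℓ := ℓ) hh'c L.hℓc
    (η := η) (R := δ1) L.hreal L.hvol L.hre L.hup L.hℓ (by positivity)
    (by
      intro w k1 k2 k3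
      have k4 := hsmall w k1 k2.le k3.le
      unfold tt at k2
      unfold uu at k4
      constructor
      · rw [abs_of_pos (by linarith)]; linarith
      · rw [abs_of_pos k1]; linarith)
    (by
      intro w k1 k2 k3
      have k4 := hsmall w k1 k2.ge k3
      have k5 := (im_pos_iff w).mp k1
      simp only [hh']
      rw [L.e4 w k2.ge (by linarith) (by linarith) (by linarith), k2]
      exact N.leg D (by linarith) (by linarith))
    hρ0 hdisc
  have hOF : {w : ℂ | 0 < w.im ∧ 0 < tt w ∧ ℓ (V3 w) < η ∧ h' (V3 w) < 0} ⊆ FL α p q h := by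
    rintro w ⟨k1, k2, k3, k4⟩
    have k5 := hsmall w k1 k2.le k3.le
    have k6 := (im_pos_iff w).mp k1
    simp only [hh'] at k4
    rw [L.e3 w k2.le (by linarith) (by linarith) (by linarith)] at k4
    exact mem_FL_of_neg k2.le k1 (by linarith) k4
  obtain ⟨m1, m2, m3, m4⟩ := hjoin.target_mem
  have m5 := hsmall w0 m1 m2.le m3.le
  have m6 := (im_pos_iff w0).mp m1
  have hw0r : ‖w0‖ < r := by
    have := norm_le_of_tu m2.le m1
    linarith
  have hw0n : h (v3 α p q (tt w0) (uu w0)) < 0 := by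
    simp only [hh'] at m4
    rwa [L.e3 w0 m2.le (by linarith) (by linarith) (by linarith)] at m4
  have hw0J : α 0 + e * V4 w0 ∈ Jc α γ := (D.hz _).mp hw0
  obtain ⟨s0, hs0, hs0e⟩ : ∃ s ∈ Ioo 0 s1, γ s = α 0 + e * V4 w0 := by
    rcases N.near w0 hw0r hw0J with ⟨k1, _⟩ | ⟨_, _, s, k3, k4⟩
    · linarith
    · exact ⟨s, k3, k4⟩
  have hg0 : g4 α γ e V4 s0 = w0 := N.g4_eq hs0e
  -- the horizontal segment
  obtain ⟨t2, u2, n1, n2, n3, n4, n5, n6⟩ := N.first D
  obtain ⟨s2, hs2, hs2e⟩ : ∃ s ∈ Ioo 0 s1, γ s = α 0 + e * V4 (pt t2 u2) := by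
    have hn : ‖pt t2 u2‖ < r := by
      have := norm_le_of_tu (w := pt t2 u2) (by rw [tt_pt]; exact n1.le)
        (by rw [im_pt]; linarith)
      rw [uu_pt] at this
      linarith
    have hJ : α 0 + e * V4 (pt t2 u2) ∈ Jc α γ := by
      rw [L.at_pt4 n1.le n2.le n3, ← D.hz]
      exact n5
    rcases N.near _ hn hJ with ⟨k1, _⟩ | ⟨_, _, s, k3, k4⟩
    · rw [im_pt] at k1; linarith
    · exact ⟨s, k3, k4⟩
  have hg2 : g4 α γ e V4 s2 = pt t2 u2 := N.g4_eq hs2e
  obtain ⟨hneg2, hj2⟩ := N.joined_g4 D hno hs0 (by rw [hg0]; exact hw0n) hs2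
  rw [hg0, hg2] at hj2
  rw [hg2, tt_pt, uu_pt] at hneg2
  have hj3 : JoinedIn (FL α p q h) (pt t2 u2) (pt 0 u2) := by
    have key := joined_pt (F := FL α p q h) (f := fun s => t2 * (1 - s))
      (g := fun _ => u2) (by fun_prop) continuous_const (by
        intro s hs
        have k1 : 0 ≤ t2 * (1 - s) := mul_nonneg n1.le (by linarith [hs.2])
        rcases hs.1.eq_or_lt with h0 | h0
        · rw [← h0]
          apply mem_FL_of_neg
          · rw [tt_pt]; linarith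
          · rw [im_pt]; linarith
          · rw [uu_pt]; linarith
          · rw [tt_pt, uu_pt, sub_zero, mul_one]
            exact hneg2
        · have k2 : 0 < t2 * s := mul_pos n1 h0
          apply mem_FL_of_pos
          · rw [tt_pt]; exact k1
          · rw [im_pt]; linarith
          · rw [uu_pt]; linarith
          · rw [tt_pt, uu_pt]
            exact n6 _ ⟨k1, by linarith⟩)
    have e1 : t2 * (1 - 0) = t2 := by ring
    have e2 : t2 * (1 - 1) = 0 := by ring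
    simp only [e1, e2] at key
    exact key
  have hj4 := N.joined_leg D (u := u2) (by linarith) (by linarith)
  refine ⟨x, ⟨hx0, by linarith⟩, ρ, hρ0, ?_⟩
  intro τ hτ
  have hj1 : JoinedIn (FL α p q h) ⟨x, τ⟩ ⟨x, ρ / 2⟩ := by
    have key : JoinedIn (FL α p q h) ((fun s : ℝ => (⟨x, τ + (ρ / 2 - τ) * s⟩ : ℂ)) 0)
        ((fun s : ℝ => (⟨x, τ + (ρ / 2 - τ) * s⟩ : ℂ)) 1) := by
      refine JoinedIn.ofLine (f := fun s : ℝ => (⟨x, τ + (ρ / 2 - τ) * s⟩ : ℂ)) ?_ rfl rfl ?_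
      · apply Continuous.continuousOn
        apply cmk'
        · exact continuous_const
        · fun_prop
      · rintro _ ⟨s, hs, rfl⟩
        have k1 : τ + (ρ / 2 - τ) * s = (1 - s) * τ + s * (ρ / 2) := by ring
        have k2 : 0 < (1 - s) * τ + s * (ρ / 2) := by
          rcases hs.1.eq_or_lt with h0 | h0
          · rw [← h0]; linarith [hτ.1]
          · have := mul_nonneg (show 0 ≤ 1 - s by linarith [hs.2]) hτ.1.le
            have := mul_pos h0 (show 0 < ρ / 2 by positivity)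
            linarith
        have k3 : (1 - s) * τ + s * (ρ / 2) < ρ := by
          have i1 := mul_le_mul_of_nonneg_left hτ.2.le (show 0 ≤ 1 - s by linarith [hs.2])
          rcases hs.1.eq_or_lt with h0 | h0
          · rw [← h0]; linarith [hτ.2]
          · have := mul_lt_mul_of_pos_left (show ρ / 2 < ρ by linarith) h0
            linarith
        have k4 : ‖(⟨x, τ + (ρ / 2 - τ) * s⟩ : ℂ) - (x : ℂ)‖ < ρ := by
          have e3 : (⟨x, τ + (ρ / 2 - τ) * s⟩ : ℂ) - (x : ℂ) =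
              ((τ + (ρ / 2 - τ) * s : ℝ) : ℂ) * I := by
            apply Complex.ext <;> simp
          rw [e3, norm_mul, Complex.norm_real, Complex.norm_I, mul_one, Real.norm_eq_abs, k1,
            abs_of_pos k2]
          exact k3
        have k5 : 0 < (⟨x, τ + (ρ / 2 - τ) * s⟩ : ℂ).im := by
          show 0 < τ + (ρ / 2 - τ) * s
          rw [k1]; exact k2
        obtain ⟨l1, l2, l3, _⟩ := hdisc _ k4 k5
        exact hOF ⟨k5, l1, l2, l3⟩
    have e1 : τ + (ρ / 2 - τ) * 0 = τ := by ring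
    have e2 : τ + (ρ / 2 - τ) * 1 = ρ / 2 := by ring
    simp only [e1, e2] at key
    exact key
  exact hj1.trans ((hjoin.mono hOF).trans (hj2.trans (hj3.trans hj4)))

end Pool.Agent.UniTrap
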