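import Pool.Agent.Lib.MP_2fd4e2_co.Uni.Main

/-!
The final statement.
-/

set_option autoImplicit false

namespace Pool.Agent.UniTrap

open Complex Set Filter Topology MeasureTheory Pool.Agent.ArcTrap Pool.Agent.SideTrap
open Pool.Agent.GenTrap (Fwd Lft Shp v3 v4 w3 w4 Jc Curve continuous_v3 continuous_v4
  continuous_w3 mi mir mi_mi mi_inj continuous_mi v3_mir v4_mir w3_mir w4_mir Jc_mir shp_of_angle)

variable {α γ : ℝ → ℂ} {A p q : ℝ}

/-- the separating function vanishing exactly on the curve -/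
theorem exists_h' (S : Curve α A γ) (H : Shp A p q) :
    ∃ h : ℂ → ℝ, Continuous h ∧ (∀ z, h z = 0 ↔ z ∈ Jc α γ) ∧
      ∀ ε0 > 0, ∃ δ > 0, ∀ t u, ε0 ≤ t → t < u → u ≤ 1 - ε0 → u - t < δ →
      h (v3 α p q t u) < 0 ∧ h (v4 α p q t u) < 0 ∧ 0 < h (w3 α p q t u) ∧
      0 < h (w4 α p q t u) := by
  obtain ⟨h, hh, hz, tM, htM, e, ε, hε, hcone, hsgn⟩ := S.sepG
  have hJc : IsClosed (Jc α γ) :=
    ((isCompact_Icc.image S.hα).union (isCompact_Icc.image S.hγ)).isClosed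
  have hJn : (Jc α γ).Nonempty := ⟨α 0, Or.inl ⟨0, ⟨le_rfl, zero_le_one⟩, rfl⟩⟩
  have hpos : ∀ z, z ∉ Jc α γ → 0 < Metric.infDist z (Jc α γ) := fun z hz =>
    (hJc.notMem_iff_infDist_pos hJn).mp hz
  set h' : ℂ → ℝ := fun z => h z * Metric.infDist z (Jc α γ) with hh'
  have hh'c : Continuous h' := hh.mul (Metric.continuous_infDist_pt _)
  have hz' : ∀ z, h' z = 0 ↔ z ∈ Jc α γ := by
    intro z
    constructor
    · intro h0
      rcases mul_eq_zero.mp h0 with h1 | h1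
      · exact hz z h1
      · by_contra hcon
        exact absurd h1 (hpos z hcon).ne'
    · intro hzJ
      simp only [hh']
      rw [Metric.infDist_zero_of_mem hzJ, mul_zero]
  refine ⟨h', hh'c, hz', S.small H hh'c (fun z h0 => (hz' z).mp h0) htM ?_⟩
  filter_upwards [S.small_base H hh hz htM hε hcone hsgn, S.small_avoid H htM] with x h1 h2 hlt
  obtain ⟨a1, a2, a3, a4⟩ := h1 hlt
  obtain ⟨b1, b2, b3, b4⟩ := h2 hlt
  exact ⟨mul_neg_of_neg_of_pos a1 (hpos _ b1), mul_neg_of_neg_of_pos a2 (hpos _ b2),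
    mul_pos a3 (hpos _ b3), mul_pos a4 (hpos _ b4)⟩

theorem inscribed_closure (φ l : ℝ) (hφ : 0 < φ) (hφ' : φ < Real.pi) (hl : 0 < l)
    (hl' : 0 < 1 + 2 * l * Real.cos φ) (A B : ℝ) (hA1 : 2 * Real.arctan A < φ)
    (hA2 : 2 * Real.arctan A < Real.pi - φ) (hB0 : 0 ≤ B) (hBA : B ≤ A)
    (hB : 2 * B * |l + Real.cos φ| < (1 - B ^ 2) * Real.sin φ)
    (G : ℝ → ℂ) (hG : ContinuousOn G (Icc 0 1)) (hinj : InjOn G (Icc 0 1))
    (hloc : ∀ t₀ ∈ Icc (0 : ℝ) 1, ∃ e : ℂ, e ≠ 0 ∧ ∃ ε > 0, ∀ t ∈ Icc (0 : ℝ) 1,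
      ∀ u ∈ Icc (0 : ℝ) 1, |t - t₀| < ε → |u - t₀| < ε → t < u →
      0 < ((G u - G t) / e).re ∧ |((G u - G t) / e).im| ≤ A * ((G u - G t) / e).re)
    (hend : ∀ t₀ ∈ ({0, 1} : Set ℝ), ∃ e : ℂ, e ≠ 0 ∧ ∃ ε > 0, ∀ t ∈ Icc (0 : ℝ) 1,
      ∀ u ∈ Icc (0 : ℝ) 1, |t - t₀| < ε → |u - t₀| < ε → t < u →
      0 < ((G u - G t) / e).re ∧ |((G u - G t) / e).im| ≤ B * ((G u - G t) / e).re)
    (g : ℝ → ℂ) (hg : ContinuousOn g (Icc 0 1)) (h0 : g 0 = G 0) (h1 : g 1 = G 1)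
    (hav : ∀ s ∈ Ioo (0 : ℝ) 1, g s ∉ G '' Icc 0 1)
    (hlegP : ∀ u ∈ Ioc (0 : ℝ) 1,
      G 0 - l * exp (-(φ * I)) * (G u - G 0) ∉ G '' Icc 0 1 ∪ g '' Icc 0 1)
    (hlegQ : ∀ t ∈ Ico (0 : ℝ) 1,
      G 1 + l * exp (φ * I) * (G 1 - G t) ∉ G '' Icc 0 1 ∪ g '' Icc 0 1)
    (hP : ∀ δ > 0, ∀ᶠ s in 𝓝[>] (0 : ℝ), ∃ t u : ℝ, 0 < t ∧ t < u ∧ u < δ ∧
      g s = G t - l * exp (-(φ * I)) * (G u - G t))
    (hQ : ∀ δ > 0, ∀ᶠ s in 𝓝[<] (1 : ℝ), ∃ t u : ℝ, 1 - δ < t ∧ t < u ∧ u < 1 ∧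
      g s = G u + l * exp (φ * I) * (G u - G t)) :
    ∃ α β : ℂ, α ≠ 0 ∧ β ∈ G '' Icc 0 1 ∧ α + β ∈ G '' Icc 0 1 ∧
      α * (1 + l * exp (φ * I)) + β ∈ G '' Icc 0 1 ∪ g '' Icc 0 1 ∧
      α * (-(l * exp (-(φ * I)))) + β ∈ G '' Icc 0 1 ∪ g '' Icc 0 1 := by
  have hsin : 0 < Real.sin φ := Real.sin_pos_of_pos_of_lt_pi hφ hφ'
  have hA0 : 0 ≤ A := hB0.trans hBA
  have hAB : Real.arctan B ≤ Real.arctan A := Real.arctan_mono hBA
  have H := shp_of_angle hφ hφ' hl hl' hA0 hA1 hA2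
  have HB := shp_of_angle hφ hφ' hl hl' hB0 (by linarith) (by linarith)
  set p := l * Real.cos φ with hp
  set q := l * Real.sin φ with hq
  have hψ : 2 * B * |p + p ^ 2 + q ^ 2| < q * (1 - B ^ 2) := by
    have e1 : p + p ^ 2 + q ^ 2 = l * (l + Real.cos φ) := by
      have := Real.sin_sq_add_cos_sq φ
      rw [hp, hq]
      linear_combination l ^ 2 * this
    rw [e1, abs_mul, abs_of_pos hl]
    have := mul_lt_mul_of_pos_left hB hl
    rw [hq]
    linarith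
  set α : ℝ → ℂ := fun t => G (c01 t) with hαdef
  set γ : ℝ → ℂ := fun t => g (c01 t) with hγdef
  have hαI : ∀ t ∈ Icc (0 : ℝ) 1, α t = G t := fun t ht => by
    simp only [hαdef]; rw [c01_of_mem ht]
  have hγI : ∀ t ∈ Icc (0 : ℝ) 1, γ t = g t := fun t ht => by
    simp only [hγdef]; rw [c01_of_mem ht]
  have i0 : (0 : ℝ) ∈ Icc (0 : ℝ) 1 := ⟨le_rfl, zero_le_one⟩
  have i1 : (1 : ℝ) ∈ Icc (0 : ℝ) 1 := ⟨zero_le_one, le_rfl⟩
  have S : Curve α A γ :=
    { hA := hA0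
      hα := hG.comp_continuous continuous_c01 c01_mem
      inj := by
        intro t ht u hu htu
        rw [hαI t ht, hαI u hu] at htu
        exact hinj ht hu htu
      loc := by
        intro t0 ht0
        obtain ⟨e, he, ε, hε, hh⟩ := hloc t0 ht0
        refine ⟨e, he, ε, hε, ?_⟩
        intro t ht u hu k1 k2 k3
        rw [hαI t ht, hαI u hu]
        exact hh t ht u hu k1 k2 k3
      hγ := hg.comp_continuous continuous_c01 c01_mem
      g0 := by rw [hγI 0 i0, hαI 0 i0, h0]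
      g1 := by rw [hγI 1 i1, hαI 1 i1, h1]
      av := by
        intro s hs t ht heq
        rw [hγI s ⟨hs.1.le, hs.2.le⟩, hαI t ht] at heq
        exact hav s hs ⟨t, ht, heq.symm⟩ }
  have hJ : Jc α γ = G '' Icc 0 1 ∪ g '' Icc 0 1 := by
    unfold Jc
    congr 1
    · exact image_congr hαI
    · exact image_congr hγI
  have ev3 : ∀ t ∈ Icc (0 : ℝ) 1, ∀ u ∈ Icc (0 : ℝ) 1,
      v3 α p q t u = G u + l * exp (φ * I) * (G u - G t) := by
    intro t ht u hu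
    unfold v3
    rw [hαI t ht, hαI u hu, kap, ← hp, ← hq]
  have ev4 : ∀ t ∈ Icc (0 : ℝ) 1, ∀ u ∈ Icc (0 : ℝ) 1,
      v4 α p q t u = G t - l * exp (-(φ * I)) * (G u - G t) := by
    intro t ht u hu
    unfold v4
    rw [hαI t ht, hαI u hu, kap', ← hp, ← hq]
    have : (⟨-p, q⟩ : ℂ) = -⟨p, -q⟩ := by apply Complex.ext <;> simp
    rw [this]
    ring
  obtain ⟨h, hh, hz, hsm⟩ := exists_h' S H
  have D : UD α γ A p q h :=
    { S := S
      H := H
      hh := hh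
      hz := hz
      small := hsm
      legP := by
        intro u hu
        rw [ev4 0 i0 u ⟨hu.1.le, hu.2⟩, hJ]
        exact hlegP u hu
      legQ := by
        intro t ht
        rw [ev3 t ⟨ht.1, ht.2.le⟩ 1 i1, hJ]
        exact hlegQ t ht }
  have E : EndP α γ p q := by
    obtain ⟨e, he, ε, hε, hc⟩ := hend 0 (by simp)
    refine ⟨e, he, min (ε / 2) 1, by positivity, B, HB, hψ, ?_, ?_⟩
    · intro t u k1 k2 k3
      have k4 := k3.trans (min_le_left _ _)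
      have k5 := k3.trans (min_le_right _ _)
      have hc' := hc t ⟨k1, by linarith⟩ u ⟨by linarith, k5⟩
        (by rw [sub_zero, abs_of_nonneg k1]; linarith)
        (by rw [sub_zero, abs_of_nonneg (by linarith)]; linarith) k2
      rw [hαI t ⟨k1, by linarith⟩, hαI u ⟨by linarith, k5⟩]
      exact hc'
    · intro δ hδ
      filter_upwards [hP (min δ 1) (by positivity),
        Ioo_mem_nhdsGT (zero_lt_one (α := ℝ))] with s hs hs1
      obtain ⟨t, u, k1, k2, k3, k4⟩ := hs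
      have k5 := k3.trans_le (min_le_left _ _)
      have k6 := k3.trans_le (min_le_right _ _)
      refine ⟨t, u, k1, k2, k5, ?_⟩
      rw [hγI s ⟨hs1.1.le, hs1.2.le⟩, ev4 t ⟨k1.le, by linarith⟩ u ⟨by linarith, k6.le⟩]
      exact k4
  have E' : EndP (mir α) (mir γ) p q := by
    obtain ⟨e, he, ε, hε, hc⟩ := hend 1 (by simp)
    refine ⟨(starRingEnd ℂ) e, by simpa using he, min (ε / 2) 1, by positivity, B, HB, hψ, ?_, ?_⟩
    · intro t u k1 k2 k3
      have k4 := k3.trans (min_le_left _ _)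
      have k5 := k3.trans (min_le_right _ _)
      have hF := hc (1 - u) ⟨by linarith, by linarith⟩ (1 - t) ⟨by linarith, by linarith⟩
        (by rw [show 1 - u - 1 = -u by ring, abs_neg, abs_of_nonneg (by linarith)]; linarith)
        (by rw [show 1 - t - 1 = -t by ring, abs_neg, abs_of_nonneg k1]; linarith) (by linarith)
      have e1 : (mir α u - mir α t) / (starRingEnd ℂ) e
          = (starRingEnd ℂ) ((G (1 - t) - G (1 - u)) / e) := by
        unfold GenTrap.mir mi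
        rw [hαI (1 - u) ⟨by linarith, by linarith⟩, hαI (1 - t) ⟨by linarith, by linarith⟩,
          map_div₀, map_sub]
        ring
      rw [e1]
      unfold Fwd
      rw [Complex.conj_re, Complex.conj_im, abs_neg]
      exact hF
    · intro δ hδ
      have hT : Tendsto (fun s : ℝ => 1 - s) (𝓝[>] 0) (𝓝[<] 1) := by
        rw [tendsto_nhdsWithin_iff]
        constructor
        · have hc1 : Continuous fun s : ℝ => 1 - s := by fun_prop
          have := (hc1.tendsto 0).mono_left (nhdsWithin_le_nhds (s := Ioi (0 : ℝ)))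
          rwa [sub_zero] at this
        · filter_upwards [self_mem_nhdsWithin] with s hs
          have : 0 < s := hs
          show 1 - s < 1
          linarith
      filter_upwards [hT.eventually (hQ (min δ 1) (by positivity)),
        Ioo_mem_nhdsGT (zero_lt_one (α := ℝ))] with s hs hs1
      obtain ⟨t, u, k1, k2, k3, k4⟩ := hs
      have k5 := min_le_left δ 1
      have k6 := min_le_right δ 1
      refine ⟨1 - u, 1 - t, by linarith, by linarith, by linarith, ?_⟩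
      rw [v4_mir, ev3 t ⟨by linarith, by linarith⟩ u ⟨by linarith, k3.le⟩, ← k4]
      unfold GenTrap.mir
      rw [hγI (1 - s) ⟨by linarith [hs1.2], by linarith [hs1.1]⟩]
  obtain ⟨t, u, ht, htu, hu, m3, m4⟩ := D.main E E'
  have ht' : t ∈ Icc (0 : ℝ) 1 := ⟨ht, by linarith⟩
  have hu' : u ∈ Icc (0 : ℝ) 1 := ⟨by linarith, hu⟩
  refine ⟨G u - G t, G t, ?_, ⟨t, ht', rfl⟩, ⟨u, hu', by ring⟩, ?_, ?_⟩
  · intro heq
    have := hinj hu' ht' (sub_eq_zero.mp heq)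
    linarith
  · rw [← hJ]
    have : (G u - G t) * (1 + l * exp (φ * I)) + G t = v3 α p q t u := by
      rw [ev3 t ht' u hu']; ring
    rw [this]; exact m3
  · rw [← hJ]
    have : (G u - G t) * (-(l * exp (-(φ * I)))) + G t = v4 α p q t u := by
      rw [ev4 t ht' u hu']; ring
    rw [this]; exact m4

end Pool.Agent.UniTrap
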