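import Pool.Agent.Lib.MP_2fd4e2_co.Uni.Corner2
import Pool.Agent.Lib.MP_2fd4e2_co.Gen.Final

/-!
The main theorem: an arc, locally a Lipschitz graph, closed up by an arbitrary path.
-/

set_option autoImplicit false

namespace Pool.Agent.UniTrap

open Complex Set Filter Topology MeasureTheory Pool.Agent.ArcTrap Pool.Agent.SideTrap
open Pool.Agent.GenTrap (Fwd Lft Shp v3 v4 w3 w4 Jc Curve continuous_v3 continuous_v4
  continuous_w3 mi mir mi_mi mi_inj continuous_mi v3_mir v4_mir w3_mir w4_mir Jc_mir)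

variable {α γ : ℝ → ℂ} {A p q : ℝ} {h : ℂ → ℝ}

theorem UD.mirror (D : UD α γ A p q h) : UD (mir α) (mir γ) A p q (fun z => h (mi z)) where
  S := D.S.mirror
  H := D.H
  hh := D.hh.comp continuous_mi
  hz := by
    intro z
    rw [D.hz, ← Jc_mir (α := α) (γ := γ), mi_mi]
  small := by
    intro ε0 hε0
    obtain ⟨δ, hδ, hs⟩ := D.small ε0 hε0
    refine ⟨δ, hδ, ?_⟩
    intro t u h1 h2 h3 h4
    have hs' := hs (1 - u) (1 - t) (by linarith) (by linarith) (by linarith) (by linarith)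
    have e3 := v3_mir (α := α) (p := p) (q := q) (1 - u) (1 - t)
    have e4 := v4_mir (α := α) (p := p) (q := q) (1 - u) (1 - t)
    have f3 := w3_mir (α := α) (p := p) (q := q) (1 - u) (1 - t)
    have f4 := w4_mir (α := α) (p := p) (q := q) (1 - u) (1 - t)
    rw [sub_sub_cancel, sub_sub_cancel] at e3 e4 f3 f4
    rw [e3, e4, f3, f4, mi_mi, mi_mi, mi_mi, mi_mi]
    exact ⟨hs'.2.1, hs'.1, hs'.2.2.2, hs'.2.2.1⟩
  legP := by
    intro u hu
    have e4 := v4_mir (α := α) (p := p) (q := q) (1 - u) 1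
    rw [sub_self, sub_sub_cancel] at e4
    rw [e4, Jc_mir]
    exact D.legQ (1 - u) ⟨by linarith [hu.2], by linarith [hu.1]⟩
  legQ := by
    intro t ht
    have e3 := v3_mir (α := α) (p := p) (q := q) 0 (1 - t)
    rw [sub_zero, sub_sub_cancel] at e3
    rw [e3, Jc_mir]
    exact D.legP (1 - t) ⟨by linarith [ht.2], by linarith [ht.1]⟩

theorem UD.sideP (D : UD α γ A p q h) (E : EndP α γ p q) {u : ℝ} (hu0 : 0 < u) (hu1 : u ≤ 1) :
    0 < h (v4 α p q 0 u) := by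
  obtain ⟨e, ε, V3, V4, ℓ, s1, r, N⟩ := D.exists_Nr E
  exact N.leg D hu0 hu1

theorem UD.sideQ (D : UD α γ A p q h) (E : EndP (mir α) (mir γ) p q) {t : ℝ} (ht0 : 0 ≤ t)
    (ht1 : t < 1) : 0 < h (v3 α p q t 1) := by
  have := D.mirror.sideP E (u := 1 - t) (by linarith) (by linarith)
  have e4 := v4_mir (α := α) (p := p) (q := q) t 1
  rw [sub_self] at e4
  rwa [e4, mi_mi] at this

/-- the set of pairs for the other end -/
def FR (α : ℝ → ℂ) (p q : ℝ) (h : ℂ → ℝ) : Set ℂ :=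
  {w | 0 ≤ tt w ∧ 0 < w.im ∧ uu w ≤ 1 ∧
    ¬ (h (v3 α p q (tt w) (uu w)) ≤ 0 ∧ 0 ≤ h (v4 α p q (tt w) (uu w)))}

/-- the mirror image of a pair -/
def mp (w : ℂ) : ℂ := ⟨1 - w.re, w.im⟩

theorem tt_mp (w : ℂ) : tt (mp w) = 1 - uu w := by simp only [tt, uu, mp]; ring
theorem uu_mp (w : ℂ) : uu (mp w) = 1 - tt w := by simp only [tt, uu, mp]; ring

theorem continuous_mp : Continuous mp := by
  unfold mp
  exact cmk' (continuous_const.sub Complex.continuous_re) Complex.continuous_im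

theorem mp_FL : mp '' FL (mir α) p q (fun z => h (mi z)) ⊆ FR α p q h := by
  rintro _ ⟨w, ⟨h1, h2, h3, h4⟩, rfl⟩
  refine ⟨by rw [tt_mp]; linarith, h2, by rw [uu_mp]; linarith, ?_⟩
  rintro ⟨k1, k2⟩
  apply h4
  have e3 := v3_mir (α := α) (p := p) (q := q) (tt (mp w)) (uu (mp w))
  have e4 := v4_mir (α := α) (p := p) (q := q) (tt (mp w)) (uu (mp w))
  have f1 : 1 - uu (mp w) = tt w := by rw [uu_mp]; ring
  have f2 : 1 - tt (mp w) = uu w := by rw [tt_mp]; ring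
  rw [f1, f2] at e3 e4
  show 0 ≤ h (mi (v3 (mir α) p q (tt w) (uu w))) ∧ h (mi (v4 (mir α) p q (tt w) (uu w))) ≤ 0
  rw [e3, e4, mi_mi, mi_mi]
  exact ⟨k2, k1⟩

theorem UD.corner' (D : UD α γ A p q h) (E : EndP (mir α) (mir γ) p q)
    (hno : ∀ t u : ℝ, 0 ≤ t → t < u → u ≤ 1 → ¬ (h (v3 α p q t u) = 0 ∧ h (v4 α p q t u) = 0)) :
    ∃ x ∈ Ioo (1 / 2 : ℝ) 1, ∃ ρ > 0, ∀ τ ∈ Ioo 0 ρ, JoinedIn (FR α p q h) ⟨x, τ⟩ (pt 0 1) := by
  obtain ⟨x, hx, ρ, hρ, hj⟩ := D.mirror.corner E (by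
    rintro t u h1 h2 h3 ⟨k1, k2⟩
    have e3 := v3_mir (α := α) (p := p) (q := q) (1 - u) (1 - t)
    have e4 := v4_mir (α := α) (p := p) (q := q) (1 - u) (1 - t)
    rw [sub_sub_cancel, sub_sub_cancel] at e3 e4
    rw [e3, mi_mi] at k1
    rw [e4, mi_mi] at k2
    exact hno (1 - u) (1 - t) (by linarith) (by linarith) (by linarith) ⟨k2, k1⟩)
  refine ⟨1 - x, ⟨by linarith [hx.2], by linarith [hx.1]⟩, ρ, hρ, ?_⟩
  intro τ hτ
  have h1 := ((hj τ hτ).map_continuousOn continuous_mp.continuousOn).mono mp_FL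
  have e1 : mp ⟨x, τ⟩ = ⟨1 - x, τ⟩ := rfl
  have e2 : mp (pt 0 1) = pt 0 1 := by
    apply tu_ext
    · rw [tt_mp, tt_pt, uu_pt]; ring
    · rw [uu_mp, tt_pt, uu_pt]; ring
  rwa [e1, e2] at h1

/-- **The trapezoid.** -/
theorem UD.main (D : UD α γ A p q h) (E : EndP α γ p q) (E' : EndP (mir α) (mir γ) p q) :
    ∃ t u, 0 ≤ t ∧ t < u ∧ u ≤ 1 ∧ v3 α p q t u ∈ Jc α γ ∧ v4 α p q t u ∈ Jc α γ := by
  by_contra hcon
  have hno : ∀ t u : ℝ, 0 ≤ t → t < u → u ≤ 1 →
      ¬ (h (v3 α p q t u) = 0 ∧ h (v4 α p q t u) = 0) := by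
    rintro t u h1 h2 h3 ⟨k1, k2⟩
    exact hcon ⟨t, u, h1, h2, h3, (D.hz _).mp k1, (D.hz _).mp k2⟩
  obtain ⟨x1, hx1, ρ1, hρ1, hL⟩ := D.corner E hno
  obtain ⟨x2, hx2, ρ2, hρ2, hR⟩ := D.corner' E' hno
  set ε0 := min x1 (1 - x2) / 2 with hε0
  have hm1 := min_le_left x1 (1 - x2)
  have hm2 := min_le_right x1 (1 - x2)
  have hε0pos : 0 < ε0 := by
    have : 0 < min x1 (1 - x2) := lt_min hx1.1 (by linarith [hx2.2])
    positivity
  obtain ⟨δ, hδ, hsm⟩ := D.small ε0 hε0pos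
  obtain ⟨τ, hτ0, hτ1, hτ2, hτ3, hτ4⟩ : ∃ τ > 0, τ < ρ1 ∧ τ < ρ2 ∧ τ < δ / 2 ∧ τ < ε0 := by
    refine ⟨min (min ρ1 ρ2) (min (δ / 2) ε0) / 2, by positivity, ?_, ?_, ?_, ?_⟩
    all_goals
      have a1 := min_le_left (min ρ1 ρ2) (min (δ / 2) ε0)
      have a2 := min_le_right (min ρ1 ρ2) (min (δ / 2) ε0)
      have a3 := min_le_left ρ1 ρ2
      have a4 := min_le_right ρ1 ρ2
      have a5 := min_le_left (δ / 2) ε0
      have a6 := min_le_right (δ / 2) ε0
      have a7 : 0 < min (min ρ1 ρ2) (min (δ / 2) ε0) := by positivity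
      linarith
  have jL := hL τ ⟨hτ0, hτ1⟩
  have jR := hR τ ⟨hτ0, hτ2⟩
  set PL : ℝ → ℂ := fun y => jL.somePath.extend y with hPL
  set PR : ℝ → ℂ := fun y => jR.somePath.extend y with hPR
  have cL : Continuous PL := jL.somePath.extend.continuous
  have cR : Continuous PR := jR.somePath.extend.continuous
  have mL : ∀ y ∈ Icc (0 : ℝ) 1, PL y ∈ FL α p q h := by
    intro y hy
    simp only [hPL]
    rw [Path.extend_apply _ hy]
    exact jL.somePath_mem _
  have mR : ∀ y ∈ Icc (0 : ℝ) 1, PR y ∈ FR α p q h := by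
    intro y hy
    simp only [hPR]
    rw [Path.extend_apply _ hy]
    exact jR.somePath_mem _
  have L0 : PL 0 = ⟨x1, τ⟩ := by simp only [hPL]; rw [Path.extend_zero]
  have L1 : PL 1 = pt 0 1 := by simp only [hPL]; rw [Path.extend_one]
  have R0 : PR 0 = ⟨x2, τ⟩ := by simp only [hPR]; rw [Path.extend_zero]
  have R1 : PR 1 = pt 0 1 := by simp only [hPR]; rw [Path.extend_one]
  set Φ : ℝ × ℝ → ℂ := fun z => ((1 - z.1 : ℝ) : ℂ) * PL z.2 + ((z.1 : ℝ) : ℂ) * PR z.2 with hΦ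
  have cΦ : Continuous Φ := by
    apply Continuous.add
    · exact (Complex.continuous_ofReal.comp (continuous_const.sub continuous_fst)).mul
        (cL.comp continuous_snd)
    · exact (Complex.continuous_ofReal.comp continuous_fst).mul (cR.comp continuous_snd)
  have Φre : ∀ z, (Φ z).re = (1 - z.1) * (PL z.2).re + z.1 * (PR z.2).re := by
    intro z
    simp only [hΦ, Complex.add_re, Complex.re_ofReal_mul]
  have Φim : ∀ z, (Φ z).im = (1 - z.1) * (PL z.2).im + z.1 * (PR z.2).im := by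
    intro z
    simp only [hΦ, Complex.add_im, Complex.im_ofReal_mul]
  have Φtt : ∀ z, tt (Φ z) = (1 - z.1) * tt (PL z.2) + z.1 * tt (PR z.2) := by
    intro z; unfold tt; rw [Φre, Φim]; ring
  have Φuu : ∀ z, uu (Φ z) = (1 - z.1) * uu (PL z.2) + z.1 * uu (PR z.2) := by
    intro z; unfold uu; rw [Φre, Φim]; ring
  have hα := D.S.hα
  have cp : Continuous (fun z => (tt (Φ z), uu (Φ z))) :=
    (continuous_tt.comp cΦ).prodMk (continuous_uu.comp cΦ)
  obtain ⟨x, hx, y, hy, h3, h4⟩ := four_sign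
    (F3 := fun z => h (v3 α p q (tt (Φ z)) (uu (Φ z))))
    (F4 := fun z => h (v4 α p q (tt (Φ z)) (uu (Φ z))))
    (D.hh.comp ((continuous_v3 hα).comp cp)) (D.hh.comp ((continuous_v4 hα).comp cp))
    (by
      intro x hx
      have e1 : (Φ (x, 0)).re = (1 - x) * x1 + x * x2 := by
        rw [Φre]; simp only [L0, R0]
      have e2 : (Φ (x, 0)).im = τ := by
        rw [Φim]; simp only [L0, R0]; ring
      have k1 : x1 ≤ (Φ (x, 0)).re := by
        rw [e1]
        have := mul_nonneg hx.1 (show 0 ≤ x2 - x1 by linarith [hx1.2, hx2.1])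
        linarith
      have k2 : (Φ (x, 0)).re ≤ x2 := by
        rw [e1]
        have := mul_nonneg (show 0 ≤ 1 - x by linarith [hx.2])
          (show 0 ≤ x2 - x1 by linarith [hx1.2, hx2.1])
        linarith
      have := hsm (tt (Φ (x, 0))) (uu (Φ (x, 0))) (by unfold tt; rw [e2]; linarith)
        (by unfold tt uu; rw [e2]; linarith) (by unfold uu; rw [e2]; linarith)
        (by unfold tt uu; rw [e2]; linarith)
      exact ⟨this.1, this.2.1⟩)
    (by
      intro x hx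
      have e1 : Φ (x, 1) = pt 0 1 := by
        simp only [hΦ, L1, R1]
        push_cast
        ring
      simp only [e1, tt_pt, uu_pt]
      exact ⟨D.sideQ E' le_rfl zero_lt_one, D.sideP E zero_lt_one le_rfl⟩)
    (by
      intro y hy
      have e1 : Φ (0, y) = PL y := by
        simp only [hΦ]
        push_cast
        ring
      simp only [e1]
      exact (mL y hy).2.2.2)
    (by
      intro y hy
      have e1 : Φ (1, y) = PR y := by
        simp only [hΦ]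
        push_cast
        ring
      simp only [e1]
      exact (mR y hy).2.2.2)
  obtain ⟨a1, a2, a3, _⟩ := mL y hy
  obtain ⟨b1, b2, b3, _⟩ := mR y hy
  have hx' : 0 ≤ 1 - x := by linarith [hx.2]
  refine hno _ _ ?_ ?_ ?_ ⟨h3, h4⟩
  · rw [Φtt]
    exact add_nonneg (mul_nonneg hx' a1) (mul_nonneg hx.1 b1)
  · rw [← im_pos_iff, Φim]
    rcases hx.1.eq_or_lt with h0 | h0
    · simp only [← h0]; linarith
    · have := mul_pos h0 b2
      have := mul_nonneg hx' a2.le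
      simp only
      linarith
  · rw [Φuu]
    have k1 := mul_le_mul_of_nonneg_left a3 hx'
    have k2 := mul_le_mul_of_nonneg_left b3 hx.1
    simp only
    linarith

end Pool.Agent.UniTrap
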