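import Pool.Agent.Lib.MP_2fd4e2_co.Uni.Area

/-!
The homeomorphisms of the plane describing the free vertices near an end of the arc.
-/

set_option autoImplicit false

namespace Pool.Agent.UniTrap

open Complex Set Filter Topology MeasureTheory Pool.Agent.ArcTrap Pool.Agent.SideTrap
open Pool.Agent.GenTrap (Fwd Lft Shp)

/-- the local extension of the arc in the frame of its first point -/
noncomputable def ext (α : ℝ → ℂ) (e : ℂ) (ε : ℝ) (t : ℝ) : ℂ :=
  (α (cl 0 ε t) - α 0) / e + ((t - cl 0 ε t : ℝ) : ℂ)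

structure End (α : ℝ → ℂ) (e : ℂ) (ε B : ℝ) : Prop where
  hα : Continuous α
  he : e ≠ 0
  hε : 0 < ε
  hB : 0 ≤ B
  cone : ∀ t u, 0 ≤ t → t < u → u ≤ ε → Fwd B ((α u - α t) / e)

variable {α : ℝ → ℂ} {e : ℂ} {ε B : ℝ}

theorem cl_le_self {ε t : ℝ} (ht : 0 ≤ t) (hε : 0 ≤ ε) : cl 0 ε t ≤ t := by
  unfold cl
  exact max_le ht (min_le_right _ _)

theorem cl_mono {ε t u : ℝ} (h : t ≤ u) : cl 0 ε t ≤ cl 0 ε u := by
  unfold cl
  exact max_le_max le_rfl (min_le_min le_rfl h)

theorem cl_diff {ε t u : ℝ} (h : t ≤ u) : cl 0 ε u - cl 0 ε t ≤ u - t := by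
  have h1 := cl_lip 0 ε u t
  rw [abs_of_nonneg (sub_nonneg.mpr (cl_mono h)), abs_of_nonneg (sub_nonneg.mpr h)] at h1
  exact h1

theorem ext_of_mem {t : ℝ} (ht : t ∈ Icc 0 ε) : ext α e ε t = (α t - α 0) / e := by
  unfold ext
  rw [cl_of_mem ht, sub_self]
  simp

theorem ext_zero (hε : 0 ≤ ε) : ext α e ε 0 = 0 := by
  rw [ext_of_mem ⟨le_rfl, hε⟩, sub_self, zero_div]

theorem End.continuous_ext (H : End α e ε B) : Continuous (ext α e ε) := by
  have hc := continuous_cl 0 ε
  have hα := H.hα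
  unfold ext
  refine Continuous.add ?_ ?_
  · exact ((hα.comp hc).sub continuous_const).div_const _
  · exact Complex.continuous_ofReal.comp (continuous_id.sub hc)

theorem End.fwd (H : End α e ε B) {t u : ℝ} (h : t < u) :
    Fwd B (ext α e ε u - ext α e ε t) := by
  have h1 : ext α e ε u - ext α e ε t = (α (cl 0 ε u) - α (cl 0 ε t)) / e +
      (((u - t) - (cl 0 ε u - cl 0 ε t) : ℝ) : ℂ) := by
    unfold ext
    push_cast
    ring
  have h2 := cl_diff (ε := ε) h.le
  have m1 := cl_mem H.hε.le t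
  have m2 := cl_mem H.hε.le u
  have hB := H.hB
  rw [h1]
  rcases (cl_mono (ε := ε) h.le).eq_or_lt with h3 | h3
  · rw [h3, sub_self, sub_self, zero_div, zero_add, sub_zero]
    constructor
    · simp only [Complex.ofReal_re]; linarith
    · simp only [Complex.ofReal_re, Complex.ofReal_im, abs_zero]
      exact mul_nonneg hB (by linarith)
  · obtain ⟨k1, k2⟩ := H.cone _ _ m1.1 h3 m2.2
    constructor
    · simp only [Complex.add_re, Complex.ofReal_re]; linarith
    · simp only [Complex.add_re, Complex.add_im, Complex.ofReal_re, Complex.ofReal_im, add_zero]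
      have : 0 ≤ B * ((u - t) - (cl 0 ε u - cl 0 ε t)) := mul_nonneg hB (by linarith)
      linarith

/-- the first coordinate -/
noncomputable def X (α : ℝ → ℂ) (e : ℂ) (ε : ℝ) (t : ℝ) : ℝ := (ext α e ε t).re

theorem End.X_mono (H : End α e ε B) : StrictMono (X α e ε) := by
  intro t u h
  have := (H.fwd h).1
  rw [Complex.sub_re] at this
  unfold X
  linarith

theorem End.X_cont (H : End α e ε B) : Continuous (X α e ε) :=
  Complex.continuous_re.comp H.continuous_ext

theorem End.X_neg (H : End α e ε B) {t : ℝ} (ht : t ≤ 0) : ext α e ε t = t := by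
  unfold ext
  rw [cl_of_le ht, sub_self, zero_div, sub_zero, zero_add]

theorem End.X_surj (H : End α e ε B) : Function.Surjective (X α e ε) := by
  intro y
  have h1 : X α e ε (min y 0) ≤ y := by
    unfold X
    rw [H.X_neg (min_le_right _ _), Complex.ofReal_re]
    exact min_le_left _ _
  set M : ℝ := max (ε + (y - X α e ε ε)) ε with hM
  have h2 : y ≤ X α e ε M := by
    have k1 : ε ≤ M := le_max_right _ _
    have k2 : ε + (y - X α e ε ε) ≤ M := le_max_left _ _
    have k3 : ext α e ε M = ext α e ε ε + ((M - ε : ℝ) : ℂ) := by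
      unfold ext
      have : cl 0 ε M = ε := by
        unfold cl
        rw [min_eq_left k1, max_eq_right H.hε.le]
      rw [this, cl_of_mem ⟨H.hε.le, le_rfl⟩, sub_self]
      simp
    have k4 : X α e ε M = X α e ε ε + (M - ε) := by
      unfold X
      rw [k3]
      simp
    linarith
  have h3 : min y 0 ≤ M := (min_le_right _ _).trans (H.hε.le.trans (le_max_right _ _))
  obtain ⟨t, _, ht⟩ := intermediate_value_Icc h3 H.X_cont.continuousOn ⟨h1, h2⟩
  exact ⟨t, ht⟩

noncomputable def End.homeo (H : End α e ε B) : ℝ ≃ₜ ℝ :=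
  (StrictMono.orderIsoOfSurjective (X α e ε) H.X_mono H.X_surj).toHomeomorph

theorem End.homeo_apply (H : End α e ε B) (t : ℝ) : H.homeo t = X α e ε t := rfl

theorem End.homeo_lt (H : End α e ε B) {x y : ℝ} (h : x < y) : H.homeo.symm x < H.homeo.symm y := by
  by_contra hcon
  push Not at hcon
  have := H.X_mono.monotone hcon
  rw [← H.homeo_apply, ← H.homeo_apply, H.homeo.apply_symm_apply,
    H.homeo.apply_symm_apply] at this
  linarith

/-- the map of the plane of pairs -/
noncomputable def pairMap (f : ℝ → ℝ) (w : ℂ) : ℂ :=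
  ⟨(f (tt w) + f (uu w)) / 2, (f (uu w) - f (tt w)) / 2⟩

theorem tt_pairMap (f : ℝ → ℝ) (w : ℂ) : tt (pairMap f w) = f (tt w) := by
  unfold pairMap
  simp only [tt]
  ring

theorem uu_pairMap (f : ℝ → ℝ) (w : ℂ) : uu (pairMap f w) = f (uu w) := by
  unfold pairMap
  simp only [uu]
  ring

theorem tu_ext {w w' : ℂ} (h1 : tt w = tt w') (h2 : uu w = uu w') : w = w' := by
  unfold tt at h1
  unfold uu at h2
  apply Complex.ext <;> linarith

theorem continuous_pairMap {f : ℝ → ℝ} (hf : Continuous f) : Continuous (pairMap f) := by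
  have h1 := continuous_tt
  have h2 := continuous_uu
  unfold pairMap
  apply cmk'
  · exact ((hf.comp h1).add (hf.comp h2)).div_const _
  · exact ((hf.comp h2).sub (hf.comp h1)).div_const _

noncomputable def pairHomeo (g : ℝ ≃ₜ ℝ) : ℂ ≃ₜ ℂ where
  toFun := pairMap g
  invFun := pairMap g.symm
  left_inv := by
    intro w
    apply tu_ext
    · rw [tt_pairMap, tt_pairMap, g.symm_apply_apply]
    · rw [uu_pairMap, uu_pairMap, g.symm_apply_apply]
  right_inv := by
    intro w
    apply tu_ext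
    · rw [tt_pairMap, tt_pairMap, g.apply_symm_apply]
    · rw [uu_pairMap, uu_pairMap, g.apply_symm_apply]
  continuous_toFun := continuous_pairMap g.continuous
  continuous_invFun := continuous_pairMap g.symm.continuous

theorem pairHomeo_apply (g : ℝ ≃ₜ ℝ) (w : ℂ) : pairHomeo g w = pairMap g w := rfl
theorem pairHomeo_symm_apply (g : ℝ ≃ₜ ℝ) (w : ℂ) : (pairHomeo g).symm w = pairMap g.symm w := rfl

theorem im_pos_iff (w : ℂ) : 0 < w.im ↔ tt w < uu w := by
  unfold tt uu
  constructor <;> intro h <;> linarith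

theorem im_neg_iff (w : ℂ) : w.im < 0 ↔ uu w < tt w := by
  unfold tt uu
  constructor <;> intro h <;> linarith

theorem End.im_pair (H : End α e ε B) (w : ℂ) :
    0 < (pairHomeo H.homeo w).im ↔ 0 < w.im := by
  rw [im_pos_iff, im_pos_iff, pairHomeo_apply, tt_pairMap, uu_pairMap, H.homeo_apply,
    H.homeo_apply]
  exact H.X_mono.lt_iff_lt

theorem End.im_pair_symm (H : End α e ε B) (w : ℂ) :
    0 < ((pairHomeo H.homeo).symm w).im ↔ 0 < w.im := by
  rw [← H.im_pair, Homeomorph.apply_symm_apply]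

theorem End.im_pair_neg (H : End α e ε B) (w : ℂ) :
    (pairHomeo H.homeo w).im < 0 ↔ w.im < 0 := by
  rw [im_neg_iff, im_neg_iff, pairHomeo_apply, tt_pairMap, uu_pairMap, H.homeo_apply,
    H.homeo_apply]
  exact H.X_mono.lt_iff_lt

theorem End.im_pair_symm_neg (H : End α e ε B) (w : ℂ) :
    ((pairHomeo H.homeo).symm w).im < 0 ↔ w.im < 0 := by
  rw [← H.im_pair_neg, Homeomorph.apply_symm_apply]

/-- the function whose graph is the arc -/
noncomputable def End.fn (H : End α e ε B) (x : ℝ) : ℝ := (ext α e ε (H.homeo.symm x)).im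

theorem End.zz_fn (H : End α e ε B) (t : ℝ) : zz H.fn (X α e ε t) = ext α e ε t := by
  unfold zz End.fn
  have : H.homeo.symm (X α e ε t) = t := by rw [← H.homeo_apply, H.homeo.symm_apply_apply]
  rw [this]
  rfl

theorem End.fn_lip (H : End α e ε B) (x y : ℝ) : |H.fn x - H.fn y| ≤ B * |x - y| := by
  have key : ∀ x y, x < y → |H.fn y - H.fn x| ≤ B * (y - x) := by
    intro x y hxy
    obtain ⟨k1, k2⟩ := H.fwd (H.homeo_lt hxy)
    rw [Complex.sub_im, Complex.sub_re] at k2
    have e1 : (ext α e ε (H.homeo.symm y)).re = y := by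
      show X α e ε (H.homeo.symm y) = y
      rw [← H.homeo_apply, H.homeo.apply_symm_apply]
    have e2 : (ext α e ε (H.homeo.symm x)).re = x := by
      show X α e ε (H.homeo.symm x) = x
      rw [← H.homeo_apply, H.homeo.apply_symm_apply]
    rw [e1, e2] at k2
    exact k2
  rcases lt_trichotomy x y with h | h | h
  · rw [abs_sub_comm, abs_sub_comm x y, abs_of_pos (show 0 < y - x by linarith)]
    exact key x y h
  · rw [h, sub_self, sub_self, abs_zero, mul_zero]
  · rw [abs_of_pos (show 0 < x - y by linarith)]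
    exact key y x h

theorem End.fn_neg (H : End α e ε B) (x : ℝ) (hx : x ≤ 0) : H.fn x = H.fn 0 := by
  have key : ∀ x ≤ 0, H.fn x = 0 := by
    intro x hx
    have h1 : H.homeo.symm x = x := by
      rw [H.homeo.symm_apply_eq, H.homeo_apply]
      unfold X
      rw [H.X_neg hx, Complex.ofReal_re]
    unfold End.fn
    rw [h1, H.X_neg hx, Complex.ofReal_im]
  rw [key x hx, key 0 le_rfl]

/-- the data of the two homeomorphisms -/
structure LM (α : ℝ → ℂ) (e : ℂ) (ε p q : ℝ) (V3 V4 : ℂ ≃ₜ ℂ) (ℓ : ℂ → ℝ) : Prop where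
  e3 : ∀ w, 0 ≤ tt w → tt w ≤ ε → 0 ≤ uu w → uu w ≤ ε →
    α 0 + e * V3 w = GenTrap.v3 α p q (tt w) (uu w)
  e4 : ∀ w, 0 ≤ tt w → tt w ≤ ε → 0 ≤ uu w → uu w ≤ ε →
    α 0 + e * V4 w = GenTrap.v4 α p q (tt w) (uu w)
  hreal : ∀ x : ℝ, V3 x = V4 x
  hvol : ∀ S : Set ℂ, IsOpen S → volume (V3 '' S) = volume (V4 '' S)
  hre : ∀ w : ℂ, 0 < w.im → (V4 w).re < (V3 w).re
  hup : ∀ w : ℂ, 0 < (V3.symm w).im ↔ 0 < (V4.symm w).im
  hℓc : Continuous ℓ
  hℓ : ∀ w : ℂ, 0 < w.im → ℓ (V4 w) < ℓ (V3 w)
  hℓ0 : ℓ (V3 0) = 0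
  hsm : ∀ δ > 0, ∃ η > 0, ∀ w : ℂ, 0 < w.im → 0 ≤ tt w → ℓ (V3 w) ≤ η → uu w < δ
  hlow : ∀ t u, 0 ≤ t → t < u → u ≤ ε → (V4.symm ((GenTrap.w3 α p q t u - α 0) / e)).im < 0

theorem End.exists_LM (H : End α e ε B) {p q : ℝ} (S : Shp B p q)
    (hψ : 2 * B * |p + p ^ 2 + q ^ 2| < q * (1 - B ^ 2)) :
    ∃ V3 V4 : ℂ ≃ₜ ℂ, ∃ ℓ : ℂ → ℝ, LM α e ε p q V3 V4 ℓ := by
  set c : ℂ := ⟨1 + p, q⟩ with hc
  set d : ℂ := ⟨-p, q⟩ with hd
  have Hc : MD H.fn B 0 c (p + p ^ 2 + q ^ 2) q :=
    { hf := H.fn_lip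
      hA := H.hB
      hfa := H.fn_neg
      hc := by
        rw [hc]
        apply Complex.ext
        · simp only [Complex.mul_re, Complex.conj_re, Complex.conj_im, Complex.sub_re,
            Complex.sub_im, Complex.one_re, Complex.one_im]
          ring
        · simp only [Complex.mul_im, Complex.conj_re, Complex.conj_im, Complex.sub_re,
            Complex.sub_im, Complex.one_re, Complex.one_im]
          ring
      hq := S.hq
      him := by rw [hc]
      hμ := hψ }
  have Hd : MD H.fn B 0 d (p + p ^ 2 + q ^ 2) q :=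
    { hf := H.fn_lip
      hA := H.hB
      hfa := H.fn_neg
      hc := by
        rw [hd]
        apply Complex.ext
        · simp only [Complex.mul_re, Complex.conj_re, Complex.conj_im, Complex.sub_re,
            Complex.sub_im, Complex.one_re, Complex.one_im]
          ring
        · simp only [Complex.mul_im, Complex.conj_re, Complex.conj_im, Complex.sub_re,
            Complex.sub_im, Complex.one_re, Complex.one_im]
          ring
      hq := S.hq
      him := by rw [hd]
      hμ := hψ }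
  obtain ⟨W3, W4, e3, e4, hvol, hre, hup3, hup4⟩ := pair Hc Hd (by
    rw [hc, hd]
    show 0 < 1 + p - -p
    have := S.hl
    linarith)
  set XX := pairHomeo H.homeo with hXX
  have hV3 : ∀ w, (XX.trans W3) w = ext α e ε (uu w) + ⟨p, q⟩ *
      (ext α e ε (uu w) - ext α e ε (tt w)) := by
    intro w
    rw [Homeomorph.trans_apply, e3]
    unfold Vm
    rw [hXX, pairHomeo_apply, tt_pairMap, uu_pairMap, H.homeo_apply, H.homeo_apply, H.zz_fn,
      H.zz_fn]
    have : c = 1 + ⟨p, q⟩ := by rw [hc]; apply Complex.ext <;> simp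
    rw [this]
    ring
  have hV4 : ∀ w, (XX.trans W4) w = ext α e ε (tt w) + ⟨-p, q⟩ *
      (ext α e ε (uu w) - ext α e ε (tt w)) := by
    intro w
    rw [Homeomorph.trans_apply, e4]
    unfold Vm
    rw [hXX, pairHomeo_apply, tt_pairMap, uu_pairMap, H.homeo_apply, H.homeo_apply, H.zz_fn,
      H.zz_fn]
    rw [hd]
    ring
  set b := q * (1 - B ^ 2) - 2 * |p| * B with hb
  have hb0 : 0 < b := by have := S.hC; rw [hb]; linarith
  have hB := H.hB
  have hq := S.hq
  set κ := |p| + q * B + 1 with hκ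
  have hκ0 : 0 < κ := by
    have := abs_nonneg p
    have := mul_nonneg hq.le hB
    rw [hκ]; linarith
  set m := B + b / κ with hm
  have hmB : 0 < m - B := by rw [hm]; have := div_pos hb0 hκ0; linarith
  set ℓ : ℂ → ℝ := fun z => z.im + m * z.re with hℓ
  have ℓadd : ∀ z w, ℓ (z + w) = ℓ z + ℓ w := by
    intro z w; simp only [hℓ, Complex.add_re, Complex.add_im]; ring
  have ℓfwd : ∀ v : ℂ, Fwd B v → (m - B) * v.re ≤ ℓ v := by
    rintro v ⟨k1, k2⟩
    have := (abs_le.mp k2).1
    simp only [hℓ]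
    linarith
  have ℓκ : ∀ v : ℂ, Fwd B v → 0 ≤ ℓ ((⟨p, q⟩ : ℂ) * v) := by
    rintro v ⟨k1, k2⟩
    have k3 := abs_le.mp k2
    simp only [hℓ, Complex.mul_re, Complex.mul_im]
    -- im ≥ (q - |p| B) re, |re part| ≤ (|p| + q B) re
    have i1 : (q - |p| * B) * v.re ≤ p * v.im + q * v.re := by
      have h2 : |p * v.im| ≤ |p| * (B * v.re) := by
        rw [abs_mul]; exact mul_le_mul_of_nonneg_left k2 (abs_nonneg _)
      have := (abs_le.mp h2).1
      linarith
    have i2 : |p * v.re - q * v.im| ≤ (|p| + q * B) * v.re := by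
      have h3 : |p * v.re| = |p| * v.re := by rw [abs_mul, abs_of_pos k1]
      have h4 : |q * v.im| ≤ q * (B * v.re) := by
        rw [abs_mul, abs_of_pos hq]; exact mul_le_mul_of_nonneg_left k2 hq.le
      have h5 := abs_sub (p * v.re) (q * v.im)
      linarith
    have i3 := (abs_le.mp i2).1
    have hm0 : 0 ≤ m := by linarith
    have i4 := mul_le_mul_of_nonneg_left i3 hm0
    have i5 : m * (|p| + q * B) ≤ q - |p| * B := by
      have h6 : b / κ * (|p| + q * B) ≤ b := by
        rw [div_mul_eq_mul_div, div_le_iff₀ hκ0]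
        apply mul_le_mul_of_nonneg_left _ hb0.le
        rw [hκ]; linarith
      have h7 : m * (|p| + q * B) = B * (|p| + q * B) + b / κ * (|p| + q * B) := by
        rw [hm]; ring
      rw [h7]
      have h8 : B * (|p| + q * B) + b = q - |p| * B := by rw [hb]; ring
      linarith
    have i6 := mul_le_mul_of_nonneg_right i5 k1.le
    have e1 : (p * v.im + q * v.re) + m * (p * v.re - q * v.im) =
        (p * v.im + q * v.re) + m * (p * v.re - q * v.im) := rfl
    nlinarith
  refine ⟨XX.trans W3, XX.trans W4, ℓ, ?_⟩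
  refine
    { e3 := ?_
      e4 := ?_
      hreal := ?_
      hvol := ?_
      hre := ?_
      hup := ?_
      hℓc := ?_
      hℓ := ?_
      hℓ0 := ?_
      hsm := ?_
      hlow := ?_ }
  · intro w h1 h2 h3 h4
    rw [hV3, ext_of_mem ⟨h1, h2⟩, ext_of_mem ⟨h3, h4⟩]
    unfold GenTrap.v3
    have he := H.he
    field_simp
    ring
  · intro w h1 h2 h3 h4
    rw [hV4, ext_of_mem ⟨h1, h2⟩, ext_of_mem ⟨h3, h4⟩]
    unfold GenTrap.v4
    have he := H.he
    field_simp
    ring
  · intro x
    have h1 : tt (x : ℂ) = x := by simp [tt]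
    have h2 : uu (x : ℂ) = x := by simp [uu]
    rw [hV3, hV4, h1, h2, sub_self, mul_zero, mul_zero]
  · intro S hS
    have h1 : ((XX.trans W3 : ℂ ≃ₜ ℂ) : ℂ → ℂ) '' S = W3 '' (XX '' S) := by
      rw [image_image]; rfl
    have h2 : ((XX.trans W4 : ℂ ≃ₜ ℂ) : ℂ → ℂ) '' S = W4 '' (XX '' S) := by
      rw [image_image]; rfl
    rw [h1, h2]
    exact hvol _ (XX.isOpenMap _ hS)
  · intro w hw
    exact hre _ ((H.im_pair w).mpr hw)
  · intro w
    have h1 : (XX.trans W3).symm w = XX.symm (W3.symm w) := rfl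
    have h2 : (XX.trans W4).symm w = XX.symm (W4.symm w) := rfl
    rw [h1, h2, hXX, H.im_pair_symm, H.im_pair_symm, hup3, hup4]
  · simp only [hℓ]
    exact Complex.continuous_im.add (continuous_const.mul Complex.continuous_re)
  · intro w hw
    have h1 : tt w < uu w := (im_pos_iff w).mp hw
    have hF := H.fwd h1
    have h2 : (XX.trans W3) w = (XX.trans W4) w +
        ((1 + 2 * p : ℝ) : ℂ) * (ext α e ε (uu w) - ext α e ε (tt w)) := by
      rw [hV3, hV4]
      have e5 : (⟨p, q⟩ : ℂ) = ⟨-p, q⟩ + ((2 * p : ℝ) : ℂ) := by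
        apply Complex.ext
        · simp; ring
        · simp
      rw [e5]
      push_cast
      ring
    rw [h2, ℓadd]
    have h3 := ℓfwd _ hF
    have h4 := mul_pos hmB hF.1
    have h5 : ℓ (((1 + 2 * p : ℝ) : ℂ) * (ext α e ε (uu w) - ext α e ε (tt w))) =
        (1 + 2 * p) * ℓ (ext α e ε (uu w) - ext α e ε (tt w)) := by
      simp only [hℓ, Complex.re_ofReal_mul, Complex.im_ofReal_mul]
      ring
    rw [h5]
    have := mul_pos S.hl (show 0 < ℓ (ext α e ε (uu w) - ext α e ε (tt w)) by linarith)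
    linarith
  · have h1 : (XX.trans W3) 0 = 0 := by
      rw [hV3]
      have h1 : tt (0 : ℂ) = 0 := by simp [tt]
      have h2 : uu (0 : ℂ) = 0 := by simp [uu]
      rw [h1, h2, ext_zero H.hε.le]
      simp
    rw [h1]
    simp [hℓ]
  · intro δ hδ
    have hXδ : 0 < X α e ε δ := by
      have := H.X_mono hδ
      unfold X at this ⊢
      rwa [ext_zero H.hε.le, Complex.zero_re] at this
    refine ⟨(m - B) * X α e ε δ / 2, by positivity, ?_⟩
    intro w hw ht hle
    by_contra hcon
    push Not at hcon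
    have h1 : tt w < uu w := (im_pos_iff w).mp hw
    have h0 : 0 < uu w := by linarith
    have h2 := H.fwd h0
    rw [ext_zero H.hε.le, sub_zero] at h2
    have h3 := ℓfwd _ h2
    have h4 := ℓκ _ (H.fwd h1)
    rw [hV3, ℓadd] at hle
    have h5 : X α e ε δ ≤ (ext α e ε (uu w)).re := H.X_mono.monotone hcon
    have h6 := mul_le_mul_of_nonneg_left h5 hmB.le
    have h7 := mul_pos hmB hXδ
    linarith
  · intro t u ht htu hu
    have he := H.he
    set z := (GenTrap.w3 α p q t u - α 0) / e with hz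
    have hu' : u ∈ Icc 0 ε := ⟨by linarith, hu⟩
    have ht' : t ∈ Icc 0 ε := ⟨ht, by linarith⟩
    have hF := H.fwd htu
    have hL := S.lft3 hF
    set v := (⟨p, q⟩ : ℂ) * (ext α e ε u - ext α e ε t) with hv
    have hzv : z = ext α e ε u - v := by
      rw [hz, hv, ext_of_mem hu', ext_of_mem ht']
      unfold GenTrap.w3
      field_simp
      ring
    have hbelow : z.im < H.fn z.re := by
      have h1 : H.fn (X α e ε u) = (ext α e ε u).im := by
        have := congrArg Complex.im (H.zz_fn u)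
        exact this
      have h2 := H.fn_lip (X α e ε u) z.re
      have h3 : X α e ε u - z.re = v.re := by
        rw [hzv]; simp [X]
      rw [h1, h3] at h2
      have h4 := (abs_le.mp h2).2
      have h5 : z.im = (ext α e ε u).im - v.im := by rw [hzv, Complex.sub_im]
      unfold Lft at hL
      linarith
    have hs : (XX.trans W4).symm z = XX.symm (W4.symm z) := rfl
    rw [hs, hXX, H.im_pair_symm_neg]
    rcases lt_trichotomy (W4.symm z).im 0 with h3 | h3 | h3
    · exact h3
    · exfalso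
      have h4 : W4.symm z = (((W4.symm z).re : ℝ) : ℂ) := by
        apply Complex.ext
        · simp
        · simpa using h3
      have h5 : z = zz H.fn (W4.symm z).re := by
        rw [← Vm_real d H.fn, ← e4, ← h4, W4.apply_symm_apply]
      rw [h5] at hbelow
      simp [zz] at hbelow
    · exfalso
      rw [hup4] at h3
      linarith

end Pool.Agent.UniTrap
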